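import Pool.Agent.H16.FV.L.Basic

/-!
Gluing the flows of the classes, and the extension of a flow to a class with three outgoing edges.
-/

set_option autoImplicit false

namespace Pool.Agent.TH362.TF

open Finset

variable {V E : Type} [Fintype V] [DecidableEq V] [DecidableEq E]

theorem glue {s t : E → V} {S : Finset E} (κ : V → Fin 10) (ψ : E → F)
    (h1 : ∀ x ∈ S, κ (s x) ≠ κ (t x) → ψ x ≠ 0) (h2 : ∀ k, Ext s t S κ ψ k) : NZ s t S := by
  choose φk ha hb hc using h2
  refine ⟨fun x => if κ (s x) = κ (t x) then φk (κ (s x)) x else ψ x, ?_, ?_⟩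
  · intro x hx
    by_cases hq : κ (s x) = κ (t x)
    · simp only [if_pos hq]
      exact ha (κ (s x)) x hx rfl hq.symm
    · simp only [if_neg hq]
      exact h1 x hx hq
  · intro v
    have hv := hc (κ v) v rfl
    unfold Cons at hv ⊢
    refine Eq.trans (Finset.sum_congr rfl fun x hx => ?_) hv
    have key : s x = v ∨ t x = v →
        (if κ (s x) = κ (t x) then φk (κ (s x)) x else ψ x) = φk (κ v) x := by
      intro hst
      by_cases hq : κ (s x) = κ (t x)
      · rw [if_pos hq]
        rcases hst with hst | hst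
        · rw [hst]
        · rw [hq, hst]
      · rw [if_neg hq]
        refine (hb (κ v) x hx ?_).symm
        intro hiff
        rcases hst with hst | hst
        · have e1 : κ (s x) = κ v := by rw [hst]
          exact hq (e1.trans (hiff.1 e1).symm)
        · have e1 : κ (t x) = κ v := by rw [hst]
          exact hq ((hiff.2 e1).trans e1.symm)
    congr 1
    · by_cases h : s x = v
      · rw [if_pos h, if_pos h]; exact key (Or.inl h)
      · rw [if_neg h, if_neg h]
    · by_cases h : t x = v
      · rw [if_pos h, if_pos h]; exact key (Or.inr h)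
      · rw [if_neg h, if_neg h]

namespace ExtAux

theorem char2 (a : F) : a + a = 0 := by
  obtain ⟨a1, a2⟩ := a
  revert a1 a2
  decide

theorem ne_of_sum {a b c : F} (hc : c ≠ 0) (h : a + b + c = 0) : a ≠ b := by
  rintro rfl
  rw [char2, zero_add] at h
  exact hc h

theorem third {a b c : F} (h : a + b + c = 0) : c = a + b := by
  have h2 : c = (a + b) + (a + b + c) := by
    rw [← add_assoc, char2, zero_add]
  rw [h2, h, add_zero]

end ExtAux

open ExtAux in
theorem MinC.regExt {s t : E → V} {S : Finset E} (h : MinC s t S) (κ : V → Fin 10) (ψ : E → F)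
    (k : Fin 10) (hk : (cut s t S (fun v => decide (κ v = k))).card = 3)
    (h0 : ∀ x ∈ cut s t S (fun v => decide (κ v = k)), ψ x ≠ 0)
    (hs : ∑ x ∈ cut s t S (fun v => decide (κ v = k)), ψ x = 0)
    (ho : ((odd s t S).filter (fun v => κ v = k)).card ≤ 8)
    (hout : ∃ x ∈ S, κ (s x) ≠ k ∧ κ (t x) ≠ k) : Ext s t S κ ψ k := by
  classical
  obtain ⟨x0, hx0, hsx, htx⟩ := hout
  set z : V := s x0 with hz
  set f : V → V := fun v => if κ v = k then v else z with hfdef
  set S' : Finset E := S.filter (fun e => κ (s e) = k ∨ κ (t e) = k) with hS'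
  have hfk : ∀ v, κ v = k → f v = v := fun v hv => by simp only [hfdef, if_pos hv]
  have hfn : ∀ v, κ v ≠ k → f v = z := fun v hv => by simp only [hfdef, if_neg hv]
  have hS : S' ⊆ S := Finset.filter_subset _ _
  have hlt : S'.card < S.card := by
    refine Finset.card_lt_card ⟨hS, fun hsub => ?_⟩
    have := (Finset.mem_filter.1 (hsub hx0)).2
    rcases this with h3 | h3
    · exact hsx h3
    · exact htx h3
  have hf : ∀ e ∈ S, e ∉ S' → f (s e) = f (t e) := by
    intro e he hne
    have h3 : κ (s e) ≠ k := fun h3 => hne (Finset.mem_filter.2 ⟨he, Or.inl h3⟩)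
    have h4 : κ (t e) ≠ k := fun h4 => hne (Finset.mem_filter.2 ⟨he, Or.inr h4⟩)
    rw [hfn _ h3, hfn _ h4]
  have hn1 := quot_n1 hS hf h.n1
  have hodd : (odd (fun e => f (s e)) (fun e => f (t e)) S').card ≤ 9 := by
    have h3 : odd (fun e => f (s e)) (fun e => f (t e)) S' ⊆
        insert z ((odd s t S).filter (fun v => κ v = k)) := by
      intro v hv
      obtain ⟨u, hu, huv⟩ := Finset.mem_image.1 (quot_odd hS hf hv)
      by_cases hu2 : κ u = k
      · rw [hfk u hu2] at huv
        subst huv
        exact Finset.mem_insert_of_mem (Finset.mem_filter.2 ⟨hu, hu2⟩)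
      · rw [hfn u hu2] at huv
        subst huv
        exact Finset.mem_insert_self _ _
    have h4 := Finset.card_le_card h3
    have h5 := Finset.card_insert_le z ((odd s t S).filter (fun v => κ v = k))
    omega
  rcases h.ih _ _ S' hlt hn1 (by omega) with hNZ | hPQ
  swap
  · have := pq_card hPQ
    omega
  obtain ⟨φ', hne, hcons⟩ := hNZ
  set C := cut s t S (fun v => decide (κ v = k)) with hC
  have hzk : κ z ≠ k := hsx
  have hcut : cut (fun e => f (s e)) (fun e => f (t e)) S' (fun v => decide (κ v = k)) = C := by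
    rw [quot_cut hS hf]
    rw [hC]
    congr 1
    funext v
    by_cases hv : κ v = k
    · rw [hfk v hv]
    · rw [hfn v hv]
      simp only [hv, hzk]
  have hsum : ∑ e ∈ C, φ' e = 0 := by
    rw [← hcut]
    exact flow_cut _ (fun v _ => hcons v)
  have hCS : ∀ e ∈ C, e ∈ S' := by
    intro e he
    obtain ⟨h3, h4⟩ := Finset.mem_filter.1 he
    refine Finset.mem_filter.2 ⟨h3, ?_⟩
    by_contra hcon
    push Not at hcon
    exact h4 (by simp only [hcon.1, hcon.2])
  obtain ⟨x, y, w, hxy, hxw, hyw, hCe⟩ := Finset.card_eq_three.1 hk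
  have hxC : x ∈ C := by rw [hCe]; simp
  have hyC : y ∈ C := by rw [hCe]; simp
  have hwC : w ∈ C := by rw [hCe]; simp
  have hsum3 : ∀ g : E → F, ∑ e ∈ C, g e = g x + g y + g w := by
    intro g
    rw [hCe, Finset.sum_insert (by simp [hxy, hxw]), Finset.sum_insert (by simp [hyw]),
      Finset.sum_singleton, add_assoc]
  rw [hsum3] at hsum hs
  have p1 := hne x (hCS x hxC)
  have p2 := hne y (hCS y hyC)
  have p3 := hne w (hCS w hwC)
  have q1 := h0 x hxC
  have q2 := h0 y hyC
  have q3 := h0 w hwC
  obtain ⟨σ, hσ0, hσ1, hσ2⟩ := match2 (φ' x) (φ' y) (ψ x) (ψ y) p1 p2 (ne_of_sum p3 hsum) q1 q2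
    (ne_of_sum q3 hs)
  have hσ3 : σ (φ' w) = ψ w := by
    rw [third hsum, third hs, map_add, hσ1, hσ2]
  refine ⟨fun e => σ (φ' e), ?_, ?_, ?_⟩
  · intro e he h3 _
    exact hσ0 _ (hne e (Finset.mem_filter.2 ⟨he, Or.inl h3⟩))
  · intro e he hiff
    have heC : e ∈ C := by
      refine Finset.mem_filter.2 ⟨he, fun hd => hiff ?_⟩
      exact decide_eq_decide.1 hd
    rw [hCe] at heC
    rcases Finset.mem_insert.1 heC with rfl | heC
    · exact hσ1
    · rcases Finset.mem_insert.1 heC with rfl | heC
      · exact hσ2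
      · rw [Finset.mem_singleton.1 heC]
        exact hσ3
  · intro v hv
    have hcv := hcons v
    unfold Cons at hcv ⊢
    have h3 : ∀ e, (f (s e) = v ↔ s e = v) := by
      intro e
      by_cases h4 : κ (s e) = k
      · rw [hfk _ h4]
      · rw [hfn _ h4]
        constructor
        · intro h5
          rw [h5] at hzk
          exact absurd hv hzk
        · intro h5
          rw [h5] at h4
          exact absurd hv h4
    have h3' : ∀ e, (f (t e) = v ↔ t e = v) := by
      intro e
      by_cases h4 : κ (t e) = k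
      · rw [hfk _ h4]
      · rw [hfn _ h4]
        constructor
        · intro h5
          rw [h5] at hzk
          exact absurd hv hzk
        · intro h5
          rw [h5] at h4
          exact absurd hv h4
    have h6 : ∑ e ∈ S', ((if s e = v then σ (φ' e) else 0) + (if t e = v then σ (φ' e) else 0))
        = 0 := by
      have h7 : ∑ e ∈ S', ((if s e = v then σ (φ' e) else 0) + (if t e = v then σ (φ' e) else 0))
          = σ (∑ e ∈ S', ((if f (s e) = v then φ' e else 0) + (if f (t e) = v then φ' e else 0))) := by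
        rw [map_sum]
        refine Finset.sum_congr rfl fun e _ => ?_
        rw [map_add]
        simp only [h3 e, h3' e]
        congr 1
        · split_ifs
          · rfl
          · rw [map_zero]
        · split_ifs
          · rfl
          · rw [map_zero]
      rw [h7, hcv, map_zero]
    refine Eq.trans (Finset.sum_subset hS fun e he hne2 => ?_).symm h6
    have h8 : s e ≠ v := fun h8 => hne2 (Finset.mem_filter.2 ⟨he, Or.inl (by rw [h8]; exact hv)⟩)
    have h9 : t e ≠ v := fun h9 => hne2 (Finset.mem_filter.2 ⟨he, Or.inr (by rw [h9]; exact hv)⟩)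
    rw [if_neg h8, if_neg h9, add_zero]

end Pool.Agent.TH362.TF
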