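import Mathlib.Algebra.BigOperators.Fin
import Pool.Agent.H16.FW.L.Ext

/-!
Assembly of a flow when the ends of the lifted edges are in different classes (job T16-ASM3,
helper416 for helper362).
-/

set_option autoImplicit false

namespace Pool.Agent.TH362.TF

open Finset

set_option linter.unusedSectionVars false

variable {V E : Type} [Fintype V] [DecidableEq V] [DecidableEq E]

namespace Asm3

lemma nb_inj : ∀ (k : Fin 10) (j j' : Fin 3), nb k j = nb k j' → j = j' := by decide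

lemma nb_ne : ∀ (k : Fin 10) (j : Fin 3), nb k j ≠ k := by decide

lemma padj_nb : ∀ (k : Fin 10) (j : Fin 3), padj k (nb k j) = true := by decide

lemma padj_ex : ∀ k l : Fin 10, padj k l = true → ∃ j : Fin 3, nb k j = l := by decide

lemma padj_symm : ∀ k l : Fin 10, padj k l = true → padj l k = true := by decide

lemma padj_ne : ∀ k l : Fin 10, padj k l = true → k ≠ l := by decide

lemma out3 (k A B : Fin 10) : ∃ i j : Fin 10, padj i j = true ∧ i ≠ k ∧ j ≠ k ∧
    ¬ (i = A ∧ j = B ∨ i = B ∧ j = A) := by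
  by_cases h1 : ((0 : Fin 10) ≠ k ∧ (1 : Fin 10) ≠ k) ∧
      ¬ ((0 : Fin 10) = A ∧ (1 : Fin 10) = B ∨ (0 : Fin 10) = B ∧ (1 : Fin 10) = A)
  · exact ⟨0, 1, by decide, h1.1.1, h1.1.2, h1.2⟩
  by_cases h2 : ((2 : Fin 10) ≠ k ∧ (3 : Fin 10) ≠ k) ∧
      ¬ ((2 : Fin 10) = A ∧ (3 : Fin 10) = B ∨ (2 : Fin 10) = B ∧ (3 : Fin 10) = A)
  · exact ⟨2, 3, by decide, h2.1.1, h2.1.2, h2.2⟩
  by_cases h3 : ((5 : Fin 10) ≠ k ∧ (7 : Fin 10) ≠ k) ∧
      ¬ ((5 : Fin 10) = A ∧ (7 : Fin 10) = B ∨ (5 : Fin 10) = B ∧ (7 : Fin 10) = A)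
  · exact ⟨5, 7, by decide, h3.1.1, h3.1.2, h3.2⟩
  exfalso
  simp only [Fin.ext_iff, ne_eq] at h1 h2 h3
  omega

lemma F_add_self (x : F) : x + x = 0 := by
  revert x; decide

lemma F_eq_of_add {x y : F} (h : x + y = 0) : x = y := by
  revert x y; decide

variable {s t : E → V} {S : Finset E} {e f : E} {w a b : V} {κ : V → Fin 10}
  {ρ : Fin 10 → Fin 10 → E}

lemma mem_cut {k : Fin 10} {x : E} : x ∈ cut s t S (fun v => decide (κ v = k)) ↔
    x ∈ S ∧ ¬ (κ (s x) = k ↔ κ (t x) = k) := by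
  unfold cut
  rw [mem_filter]
  simp only [ne_eq, decide_eq_decide]

lemma ends_cls {x : E} {u v : V} (h : Ends s t u v x) :
    (κ (s x) = κ u ∧ κ (t x) = κ v) ∨ (κ (s x) = κ v ∧ κ (t x) = κ u) := by
  rcases h with ⟨h1, h2⟩ | ⟨h1, h2⟩
  · left; rw [h1, h2]; exact ⟨rfl, rfl⟩
  · right; rw [h1, h2]; exact ⟨rfl, rfl⟩

/-- the edges leaving the class `k ≠ κ w` -/
def g (a b : V) (κ : V → Fin 10) (ρ : Fin 10 → Fin 10 → E) (e f : E) (k : Fin 10)
    (j : Fin 3) : E :=
  if k = κ a ∧ nb k j = κ b then e else if k = κ b ∧ nb k j = κ a then f else ρ k (nb k j)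

lemma joins_unique {x : E} {k l l' : Fin 10} (hl : l ≠ k) (h : Joins κ s t k l x)
    (h' : Joins κ s t k l' x) : l = l' := by
  rcases h with ⟨h1, h2⟩ | ⟨h1, h2⟩ <;> rcases h' with ⟨h3, h4⟩ | ⟨h3, h4⟩
  · rw [← h2, h4]
  · exact absurd (h2.symm.trans h4) hl
  · exact absurd (h1.symm.trans h3) hl
  · rw [← h1, h3]

lemma g_inj (q : Sit s t S e f w a b κ ρ) (hab : κ a ≠ κ b) (k : Fin 10) :
    Function.Injective (g a b κ ρ e f k) := by
  intro j j' h
  unfold g at h
  have hm : ∀ j, ¬ (k = κ a ∧ nb k j = κ b) → ¬ (k = κ b ∧ nb k j = κ a) →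
      ρ k (nb k j) ∈ S ∧ ρ k (nb k j) ≠ e ∧ ρ k (nb k j) ≠ f ∧
        Joins κ s t k (nb k j) (ρ k (nb k j)) := fun j h1 h2 =>
    q.mem k (nb k j) (padj_nb k j) (by tauto)
  split_ifs at h with h1 h2 h3 h4 h5 h6 h7 h8
  · exact nb_inj k j j' (h1.2.trans h2.2.symm)
  · exact absurd (h1.1.symm.trans h3.1) hab
  · exact absurd h.symm (hm j' h2 h3).2.1
  · exact absurd (h5.1.symm.trans h4.1) hab
  · exact nb_inj k j j' (h4.2.trans h6.2.symm)
  · exact absurd h.symm (hm j' h5 h6).2.2.1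
  · exact absurd h (hm j h1 h4).2.1
  · exact absurd h (hm j h1 h4).2.2.1
  · have e1 := (hm j h1 h4).2.2.2
    have e2 := (hm j' h7 h8).2.2.2
    rw [← h] at e2
    exact nb_inj k j j' (joins_unique (nb_ne k j) e1 e2)

lemma cut_eq (q : Sit s t S e f w a b κ ρ) (hab : κ a ≠ κ b) {k : Fin 10} (hk : k ≠ κ w) :
    cut s t S (fun v => decide (κ v = k)) = univ.image (g a b κ ρ e f k) := by
  have hAB : padj (κ a) (κ b) = true := q.ab.resolve_left hab
  ext x
  rw [mem_cut, mem_image]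
  constructor
  · rintro ⟨hxS, hx⟩
    by_cases hxe : x = e
    · subst hxe
      have hka : k = κ a := by
        rcases ends_cls (κ := κ) q.he with ⟨h1, h2⟩ | ⟨h1, h2⟩ <;> rw [h1, h2] at hx <;>
          by_contra hne <;> apply hx <;> constructor <;> intro h <;>
          first | exact absurd h.symm hk | exact absurd h.symm hne
      obtain ⟨j, hj⟩ := padj_ex _ _ hAB
      refine ⟨j, mem_univ _, ?_⟩
      unfold g
      rw [if_pos ⟨hka, by rw [hka]; exact hj⟩]
    by_cases hxf : x = f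
    · subst hxf
      have hkb : k = κ b := by
        rcases ends_cls (κ := κ) q.hf with ⟨h1, h2⟩ | ⟨h1, h2⟩ <;> rw [h1, h2] at hx <;>
          by_contra hne <;> apply hx <;> constructor <;> intro h <;>
          first | exact absurd h.symm hk | exact absurd h.symm hne
      obtain ⟨j, hj⟩ := padj_ex _ _ (padj_symm _ _ hAB)
      refine ⟨j, mem_univ _, ?_⟩
      unfold g
      rw [if_neg (fun h => hab (h.1.symm.trans hkb)), if_pos ⟨hkb, by rw [hkb]; exact hj⟩]
    · have hJ : ∃ l, k ≠ l ∧ Joins κ s t k l x := by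
        by_cases h1 : κ (s x) = k
        · exact ⟨κ (t x), fun h2 => hx (by rw [h1, ← h2]), Or.inl ⟨h1, rfl⟩⟩
        · by_cases h2 : κ (t x) = k
          · exact ⟨κ (s x), fun h3 => h1 h3.symm, Or.inr ⟨rfl, h2⟩⟩
          · exact absurd (by simp [h1, h2]) hx
      obtain ⟨l, hkl, hJ⟩ := hJ
      obtain ⟨h1, h2, h3⟩ := q.only x hxS hxe hxf k l hkl hJ
      obtain ⟨j, hj⟩ := padj_ex _ _ h1
      refine ⟨j, mem_univ _, ?_⟩
      unfold g
      rw [hj, if_neg (fun h => h2 (Or.inl h)), if_neg (fun h => h2 (Or.inr h)), h3]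
  · rintro ⟨j, -, rfl⟩
    unfold g
    split_ifs with h1 h2
    · refine ⟨q.eS, fun h => ?_⟩
      rw [h1.1] at h
      rcases ends_cls (κ := κ) q.he with ⟨h3, h4⟩ | ⟨h3, h4⟩ <;> rw [h3, h4] at h
      · exact q.wa (h.2 rfl)
      · exact q.wa (h.1 rfl)
    · refine ⟨q.fS, fun h => ?_⟩
      rw [h2.1] at h
      rcases ends_cls (κ := κ) q.hf with ⟨h3, h4⟩ | ⟨h3, h4⟩ <;> rw [h3, h4] at h
      · exact q.wb (h.2 rfl)
      · exact q.wb (h.1 rfl)
    · obtain ⟨m1, m2, m3, m4⟩ := q.mem k (nb k j) (padj_nb k j) (by tauto)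
      refine ⟨m1, fun h => ?_⟩
      rcases m4 with ⟨h3, h4⟩ | ⟨h3, h4⟩ <;> rw [h3, h4] at h
      · exact nb_ne k j (h.1 rfl)
      · exact nb_ne k j (h.2 rfl)

/-- the values between the classes -/
def psi (s t : E → V) (e f : E) (κ : V → Fin 10) (ve vf : F) (Ψ : Fin 10 → Fin 10 → F)
    (x : E) : F :=
  if x = e then ve else if x = f then vf else Ψ (κ (s x)) (κ (t x))

lemma psi_joins {ve vf : F} {Ψ : Fin 10 → Fin 10 → F} (hs : ∀ k l, Ψ k l = Ψ l k)
    {x : E} (he : x ≠ e) (hf : x ≠ f) {k l : Fin 10} (h : Joins κ s t k l x) :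
    psi s t e f κ ve vf Ψ x = Ψ k l := by
  unfold psi
  rw [if_neg he, if_neg hf]
  rcases h with ⟨h1, h2⟩ | ⟨h1, h2⟩
  · rw [h1, h2]
  · rw [h1, h2, hs]

lemma split2 {e f : E} (he : e ∈ S) (hf : f ∈ S.erase e) (G : E → F) :
    ∑ x ∈ S, G x = (G e + G f) + ∑ x ∈ (S.erase e).erase f, G x := by
  rw [← add_sum_erase S _ he, ← add_sum_erase (S.erase e) _ hf, add_assoc]

lemma contr {φ : E → F} {x : E} {w a v : V} (h : Ends s t w a x) (hv : κ v = κ w)
    (hwa : κ w ≠ κ a) :
    (if s x = v then φ x else 0) + (if t x = v then φ x else 0) =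
      if w = v then φ x else 0 := by
  have hav : a ≠ v := fun h => hwa (by rw [h, hv])
  rcases h with ⟨h1, h2⟩ | ⟨h1, h2⟩
  · rw [h1, h2, if_neg hav, add_zero]
  · rw [h1, h2, if_neg hav, zero_add]

lemma odd_le8 (h16 : (odd s t S).card ≤ 16)
    (hc : ∀ k, k ≠ κ w → (cut s t S (fun v => decide (κ v = k))).card = 3) {k : Fin 10}
    (hk : k ≠ κ w) : ((odd s t S).filter (fun v => κ v = k)).card ≤ 8 := by
  have h1 : ∀ l, l ≠ κ w → 1 ≤ ((odd s t S).filter (fun v => κ v = l)).card := by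
    intro l hl
    have h1 := parity s t S (fun v => decide (κ v = l))
    rw [hc l hl] at h1
    simp only [decide_eq_true_eq] at h1
    omega
  have h2 := card_classes (odd s t S) κ
  rw [← add_sum_erase univ _ (mem_univ k)] at h2
  have h3 : ∑ l ∈ (univ.erase k).erase (κ w), 1 ≤
      ∑ l ∈ univ.erase k, ((odd s t S).filter (fun v => κ v = l)).card :=
    (sum_le_sum fun l hl => h1 l (mem_erase.1 hl).1).trans
      (sum_le_sum_of_subset (erase_subset _ _))
  have h4 : ∑ l ∈ ((univ : Finset (Fin 10)).erase k).erase (κ w), 1 = 8 := by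
    rw [sum_const, smul_eq_mul, mul_one,
      card_erase_of_mem (mem_erase.2 ⟨hk.symm, mem_univ _⟩),
      card_erase_of_mem (mem_univ _), card_univ, Fintype.card_fin]
  omega

end Asm3

open Asm3 in
theorem MinC.asm3 {s t : E → V} {S : Finset E} (h : MinC s t S) {e f : E} {w a b : V}
    {κ : V → Fin 10} {ρ : Fin 10 → Fin 10 → E} (q : Sit s t S e f w a b κ ρ)
    (hab : κ a ≠ κ b) (pW : Fin 4) (ve vf : F) (Ψ : Fin 10 → Fin 10 → F)
    (o : Out3 (κ w) (κ a) (κ b) pW ve vf Ψ) (φW : E → F) (iW : Inn s t S κ (κ w) φW)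
    (hW : Pat pW (φW e + φW f) (φW (ρ (κ w) (nb (κ w) 0))) (φW (ρ (κ w) (nb (κ w) 1)))
      (φW (ρ (κ w) (nb (κ w) 2)))) (hW0 : φW e + φW f ≠ 0) : False := by
  have hAB : padj (κ a) (κ b) = true := q.ab.resolve_left hab
  have hpsi0 : ∀ x ∈ S, κ (s x) ≠ κ (t x) → psi s t e f κ ve vf Ψ x ≠ 0 := by
    intro x hx hne
    by_cases hxe : x = e
    · unfold psi
      rw [if_pos hxe]
      exact o.ve0
    by_cases hxf : x = f
    · unfold psi
      rw [if_neg hxe, if_pos hxf]
      exact o.vf0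
    · obtain ⟨h1, h2, h3⟩ := q.only x hx hxe hxf _ _ hne (Or.inl ⟨rfl, rfl⟩)
      unfold psi
      rw [if_neg hxe, if_neg hxf]
      exact o.nz _ _ h1 h2
  refine h.nz (glue κ (psi s t e f κ ve vf Ψ) hpsi0 fun k => ?_)
  by_cases hk : k = κ w
  · subst hk
    have hm : ∀ j, ρ (κ w) (nb (κ w) j) ∈ S ∧ ρ (κ w) (nb (κ w) j) ≠ e ∧
        ρ (κ w) (nb (κ w) j) ≠ f ∧ Joins κ s t (κ w) (nb (κ w) j) (ρ (κ w) (nb (κ w) j)) :=
      fun j => q.mem _ _ (padj_nb _ j) (by
        rintro (⟨h1, -⟩ | ⟨h1, -⟩)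
        · exact q.wa h1
        · exact q.wb h1)
    have hphi0 : ∀ j, φW (ρ (κ w) (nb (κ w) j)) ≠ 0 := by
      intro j
      refine iW.1 _ (hm j).1 ?_
      rcases (hm j).2.2.2 with ⟨h1, -⟩ | ⟨-, h1⟩
      · exact Or.inl h1
      · exact Or.inr h1
    have hPsi0 : ∀ j, Ψ (κ w) (nb (κ w) j) ≠ 0 := fun j =>
      o.nz _ _ (padj_nb _ j) (by
        rintro (⟨h1, -⟩ | ⟨h1, -⟩)
        · exact q.wa h1
        · exact q.wb h1)
    have hvef : ve + vf ≠ 0 := fun h => o.vef (F_eq_of_add h)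
    obtain ⟨σ, hσ, hσy, hσ0, hσ1, hσ2⟩ := pat_match pW _ _ _ _ _ _ _ _ hW o.pW hW0
      (hphi0 0) (hphi0 1) (hphi0 2) hvef (hPsi0 0) (hPsi0 1) (hPsi0 2)
    have hσj : ∀ j, σ (φW (ρ (κ w) (nb (κ w) j))) = Ψ (κ w) (nb (κ w) j) := by
      intro j
      fin_cases j
      · exact hσ0
      · exact hσ1
      · exact hσ2
    set φ : E → F := fun x => if x = e then ve else if x = f then vf else σ (φW x) with hφ
    refine ⟨φ, ?_, ?_, ?_⟩
    · intro x hx h1 h2
      have hxe : x ≠ e := by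
        rintro rfl
        rcases ends_cls (κ := κ) q.he with ⟨h3, h4⟩ | ⟨h3, h4⟩
        · exact q.wa (h2.symm.trans h4)
        · exact q.wa (h1.symm.trans h3)
      have hxf : x ≠ f := by
        rintro rfl
        rcases ends_cls (κ := κ) q.hf with ⟨h3, h4⟩ | ⟨h3, h4⟩
        · exact q.wb (h2.symm.trans h4)
        · exact q.wb (h1.symm.trans h3)
      simp only [hφ, if_neg hxe, if_neg hxf]
      exact hσ _ (iW.1 x hx (Or.inl h1))
    · intro x hx hx2
      by_cases hxe : x = e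
      · simp only [hφ, psi, if_pos hxe]
      by_cases hxf : x = f
      · simp only [hφ, psi, if_neg hxe, if_pos hxf]
      · have hJ : ∃ l, κ w ≠ l ∧ Joins κ s t (κ w) l x := by
          by_cases h1 : κ (s x) = κ w
          · exact ⟨κ (t x), fun h2 => hx2 (by rw [h1, ← h2]), Or.inl ⟨h1, rfl⟩⟩
          · by_cases h2 : κ (t x) = κ w
            · exact ⟨κ (s x), fun h3 => h1 h3.symm, Or.inr ⟨rfl, h2⟩⟩
            · exact absurd (by simp [h1, h2]) hx2
        obtain ⟨l, hkl, hJ⟩ := hJ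
        obtain ⟨h1, h2, h3⟩ := q.only x hx hxe hxf _ l hkl hJ
        obtain ⟨j, hj⟩ := padj_ex _ _ h1
        rw [psi_joins o.symm hxe hxf hJ]
        simp only [hφ, if_neg hxe, if_neg hxf]
        have h4 := hσj j
        rw [hj, ← h3] at h4
        exact h4
    · intro v hv
      have h0 : ∑ x ∈ S, ((if s x = v then φ x else 0) + (if t x = v then φ x else 0)) =
          ∑ x ∈ S, ((if s x = v then σ (φW x) else 0) + (if t x = v then σ (φW x) else 0)) := by
        have hfS : f ∈ S.erase e := mem_erase.2 ⟨q.ef.symm, q.fS⟩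
        rw [split2 q.eS hfS (fun x => (if s x = v then φ x else 0) +
            (if t x = v then φ x else 0)),
          split2 q.eS hfS (fun x => (if s x = v then σ (φW x) else 0) +
            (if t x = v then σ (φW x) else 0))]
        congr 1
        · rw [contr (φ := φ) q.he hv q.wa, contr (φ := φ) q.hf hv q.wb,
            contr (φ := fun x => σ (φW x)) q.he hv q.wa,
            contr (φ := fun x => σ (φW x)) q.hf hv q.wb]
          by_cases hwv : w = v
          · simp only [if_pos hwv]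
            rw [← map_add, hσy]
            simp only [hφ, if_true, if_neg q.ef.symm]
          · simp only [if_neg hwv]
        · refine sum_congr rfl fun x hx => ?_
          have hxf : x ≠ f := (mem_erase.1 hx).1
          have hxe : x ≠ e := (mem_erase.1 (mem_erase.1 hx).2).1
          simp only [hφ, if_neg hxe, if_neg hxf]
      unfold Cons
      rw [h0]
      have h1 := congrArg σ (iW.2 v hv)
      rw [map_sum, map_zero] at h1
      refine Eq.trans (sum_congr rfl fun x _ => ?_) h1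
      rw [map_add]
      congr 1 <;> split_ifs <;> simp
  · have hcut := cut_eq q hab hk
    have hinj := g_inj q hab k
    have hm : ∀ j, ¬ (k = κ a ∧ nb k j = κ b) → ¬ (k = κ b ∧ nb k j = κ a) →
        ρ k (nb k j) ∈ S ∧ ρ k (nb k j) ≠ e ∧ ρ k (nb k j) ≠ f ∧
          Joins κ s t k (nb k j) (ρ k (nb k j)) := fun j h1 h2 =>
      q.mem k (nb k j) (padj_nb k j) (by tauto)
    have hval : ∀ j, psi s t e f κ ve vf Ψ (g a b κ ρ e f k j) =
        Ψ k (nb k j) + (if k = κ a ∧ nb k j = κ b then ve else 0) +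
          (if k = κ b ∧ nb k j = κ a then vf else 0) := by
      intro j
      unfold g
      split_ifs with h1 h2 h3
      · exact absurd (h1.1.symm.trans h2.1) hab
      · rw [h1.1, ← h1.1, h1.2, h1.1, o.AB]
        simp [psi]
      · rw [h3.2, h3.1, o.symm, o.AB]
        simp [psi, q.ef.symm]
      · rw [psi_joins o.symm (hm j h1 h3).2.1 (hm j h1 h3).2.2.1 (hm j h1 h3).2.2.2]
        simp
    refine h.regExt κ _ k ?_ ?_ ?_ ?_ ?_
    · rw [hcut, card_image_of_injective _ hinj, card_univ, Fintype.card_fin]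
    · intro x hx
      obtain ⟨hxS, hx2⟩ := mem_cut.1 hx
      exact hpsi0 x hxS fun heq => hx2 (by rw [heq])
    · rw [hcut, sum_image (fun x _ y _ hxy => hinj hxy), sum_congr rfl (fun j _ => hval j),
        sum_add_distrib, sum_add_distrib, Fin.sum_univ_three]
      by_cases hkA : k = κ a
      · have hkB : ¬ k = κ b := fun h => hab (hkA.symm.trans h)
        obtain ⟨j, hj⟩ := padj_ex _ _ hAB
        have e1 : ∑ i : Fin 3, (if k = κ a ∧ nb k i = κ b then ve else 0) = ve := by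
          rw [sum_eq_single j]
          · rw [if_pos ⟨hkA, by rw [hkA]; exact hj⟩]
          · intro i _ hij
            rw [if_neg]
            rintro ⟨-, h2⟩
            rw [hkA] at h2
            exact hij (nb_inj _ _ _ (h2.trans hj.symm))
          · intro h
            exact absurd (mem_univ _) h
        have e2 : ∑ i : Fin 3, (if k = κ b ∧ nb k i = κ a then vf else 0) = 0 :=
          sum_eq_zero fun i _ => if_neg fun h => hkB h.1
        rw [e1, e2, add_zero, add_comm, hkA]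
        exact o.cA
      · have e1 : ∑ i : Fin 3, (if k = κ a ∧ nb k i = κ b then ve else 0) = 0 :=
          sum_eq_zero fun i _ => if_neg fun h => hkA h.1
        by_cases hkB : k = κ b
        · obtain ⟨j, hj⟩ := padj_ex _ _ (padj_symm _ _ hAB)
          have e2 : ∑ i : Fin 3, (if k = κ b ∧ nb k i = κ a then vf else 0) = vf := by
            rw [sum_eq_single j]
            · rw [if_pos ⟨hkB, by rw [hkB]; exact hj⟩]
            · intro i _ hij
              rw [if_neg]
              rintro ⟨-, h2⟩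
              rw [hkB] at h2
              exact hij (nb_inj _ _ _ (h2.trans hj.symm))
            · intro h
              exact absurd (mem_univ _) h
          rw [e1, e2, add_zero, add_comm, hkB]
          exact o.cB
        · have e2 : ∑ i : Fin 3, (if k = κ b ∧ nb k i = κ a then vf else 0) = 0 :=
            sum_eq_zero fun i _ => if_neg fun h => hkB h.1
          rw [e1, e2, add_zero, add_zero]
          exact o.cons k hk hkA hkB
    · refine odd_le8 h.odd16 (fun l hl => ?_) hk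
      rw [cut_eq q hab hl, card_image_of_injective _ (g_inj q hab l), card_univ,
        Fintype.card_fin]
    · obtain ⟨i, j, h1, h2, h3, h4⟩ := out3 k (κ a) (κ b)
      obtain ⟨m1, -, -, m4⟩ := q.mem i j h1 h4
      refine ⟨_, m1, ?_⟩
      rcases m4 with ⟨h5, h6⟩ | ⟨h5, h6⟩ <;> rw [h5, h6]
      · exact ⟨h2, h3⟩
      · exact ⟨h3, h2⟩

end Pool.Agent.TH362.TF
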