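import Pool.Agent.H16.FW.L.FinCD

set_option autoImplicit false

namespace Pool.Agent.TH362.TF.FinC

set_option maxRecDepth 100000 in
theorem t79 : en cl79 pl79 P79 en79 (2 ^ 0 + 2 ^ 7) (7 * 16 ^ 0 + 0 * 16 ^ 7) = true := by
  decide +kernel

end Pool.Agent.TH362.TF.FinC
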