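import Pool.Agent.H16.FW.L.FinCS
import Pool.Agent.H16.FW.L.FinC1
import Pool.Agent.H16.FW.L.FinC2
import Pool.Agent.H16.FW.L.FinC3
import Pool.Agent.H16.FW.L.FinC4

set_option autoImplicit false

namespace Pool.Agent.TH362.TF.FinC

/-- the enumeration with a given partner of the vertex `0` -/
theorem base (l : List ℕ) (cl : List (ℕ × Bool)) (pl : List (ℕ × ℕ)) (P : ℕ)
    (es : List ((ℕ × ℕ × ℕ) × List (ℕ × ℕ))) (a : ℕ) (ha : a < 16) (ha0 : a ≠ 0)
    (h1 : ∀ v < 16, (v, nxt l v) ∈ pl) (h2 : ∀ v < 16, P / 16 ^ v % 16 = nxt l v)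
    (h3 : ∀ v < 16, v ∈ es.map (fun x => x.1.1)) (h4 : vd (nxt l) es)
    (h5 : en cl pl P es (2 ^ 0 + 2 ^ a) (a * 16 ^ 0 + 0 * 16 ^ a) = true)
    (p : Equiv.Perm (Fin 16)) (m : Fin 16 → Fin 16) (hp : Std l 16 p) (g : Gi 16 p m)
    (h0 : (m 0).val = a) : Col 16 p m := by
  let s : ℕ → Bool := fun i => decide (i = 0) || decide (i = a)
  have hma : m ⟨a, ha⟩ = 0 := by
    have : (⟨a, ha⟩ : Fin 16) = m 0 := Fin.ext h0.symm
    rw [this, g.mm]
  have hU : ec 2 (aU s) 16 = 2 ^ 0 + 2 ^ a := by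
    have := ec_upd 2 (fun _ => 0) (aU s) 16 0 a 1 1 (by omega) ha (by
      intro i
      by_cases hi1 : i = 0
      · subst hi1
        simp [aU, s, Ne.symm ha0]
      · by_cases hi2 : i = a
        · subst hi2
          simp [aU, s, hi1]
        · simp [aU, s, hi1, hi2])
    rw [this]
    simp [ec]
  have hM : ec 16 (aM m s) 16 = a * 16 ^ 0 + 0 * 16 ^ a := by
    have e1 : mm m 0 = a := by rw [← h0]; exact mm_fin m 0
    have e2 : mm m a = 0 := by
      have := mm_fin m ⟨a, ha⟩
      rw [hma] at this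
      exact this
    have := ec_upd 16 (fun _ => 0) (aM m s) 16 0 a a 0 (by omega) ha (by
      intro i
      by_cases hi1 : i = 0
      · subst hi1
        simp [aM, s, e1, Ne.symm ha0]
      · by_cases hi2 : i = a
        · subst hi2
          simp [aM, s, hi1, e2]
        · simp [aM, s, hi1, hi2])
    rw [this]
    simp [ec]
  refine en_sound p m g cl pl P (nxt l) hp ?_ ?_ es s ?_ ?_ h4 ?_
  · intro v
    rw [hp v]
    exact h1 v.val v.isLt
  · intro v
    rw [hp v]
    exact h2 v.val v.isLt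
  · intro w hw
    simp only [s, Bool.or_eq_true, decide_eq_true_eq] at hw ⊢
    rcases hw with hw | hw
    · right
      have : w = 0 := Fin.ext hw
      rw [this, h0]
    · left
      have : w = ⟨a, ha⟩ := Fin.ext hw
      rw [this, hma]
      rfl
  · intro w
    exact Or.inr (h3 w.val w.isLt)
  · rw [hU, hM]
    exact h5

/-- conjugation with a symmetry of the permutation -/
theorem conj (p : Equiv.Perm (Fin 16)) (m : Fin 16 → Fin 16) (g : Gi 16 p m)
    (r r' : Fin 16 → Fin 16) (h1 : ∀ v, r (r' v) = v) (h2 : ∀ v, r' (r v) = v)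
    (hc : ∀ v, r (p v) = p (r v))
    (h : Gi 16 p (fun v => r (m (r' v))) → Col 16 p (fun v => r (m (r' v)))) : Col 16 p m := by
  have hc' : ∀ v, r' (p v) = p (r' v) := by
    intro v
    have := hc (r' v)
    rw [h1] at this
    rw [← this, h2]
  have hinj : ∀ {u v : Fin 16}, r u = r v → u = v := by
    intro u v huv
    have := congrArg r' huv
    rwa [h2, h2] at this
  have g' : Gi 16 p (fun v => r (m (r' v))) := by
    refine ⟨?_, ?_, g.p1, g.p2, g.p3, g.p4, ?_, ?_, ?_, ?_, ?_⟩
    · intro v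
      simp only [h2, g.mm, h1]
    · intro v hv
      have h3 : r (m (r' v)) = r (r' v) := by rw [h1]; exact hv
      exact g.m0 _ (hinj h3)
    · intro v hv
      have h3 : r (m (r' v)) = r (p (r' v)) := by rw [hc, h1]; exact hv
      exact g.m1 _ (hinj h3)
    · intro v hv
      have h3 : r (m (r' v)) = r (p (p (r' v))) := by rw [hc, hc, h1]; exact hv
      exact g.m2 _ (hinj h3)
    · intro v hv
      have h3 : r (m (r' v)) = r (p (p (p (r' v)))) := by rw [hc, hc, hc, h1]; exact hv
      exact g.m3 _ (hinj h3)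
    · intro v hv
      have h3 : r (m (p (r' v))) = r (p (m (r' v))) := by rw [hc, ← hc']; exact hv
      exact g.q1 _ (hinj h3)
    · intro v hv
      have h3 : r (p (m (p (r' v)))) = r (m (r' v)) := by rw [hc, ← hc']; exact hv
      exact g.q2 _ (hinj h3)
  obtain ⟨c, d, hcd⟩ := h g'
  refine ⟨fun v => c (r v), fun v => d (r v), fun v => ?_⟩
  obtain ⟨e1, e2, e3, e4⟩ := hcd (r v)
  simp only [h2] at e1
  refine ⟨e1, ?_, e3, ?_⟩
  · simp only [hc]; exact e2
  · simp only [hc]; exact e4

/-- rotation by `k` of the interval of length `b` beginning with `a` -/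
def rt (a b k v : ℕ) : ℕ := if a ≤ v ∧ v < a + b then a + (v - a + k) % b else v

theorem rot (l : List ℕ) (a b : ℕ) (ha : 0 < a)
    (h1 : ∀ k < b, ∀ v < 16, rt a b k v < 16)
    (h2 : ∀ k < b, ∀ v < 16, rt a b k (rt a b (b - k) v) = v)
    (h2' : ∀ k < b, ∀ v < 16, rt a b (b - k) (rt a b k v) = v)
    (h2'' : ∀ k < b, ∀ v < 16, rt a b (b - k) v < 16)
    (h3 : ∀ k < b, ∀ v < 16, rt a b (b - k) (nxt l v) = nxt l (rt a b (b - k) v))
    (h4 : ∀ k < b, rt a b (b - k) (a + k) = a)
    (hb : ∀ (p : Equiv.Perm (Fin 16)) (m : Fin 16 → Fin 16), Std l 16 p → Gi 16 p m →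
      (m 0).val = a → Col 16 p m)
    (p : Equiv.Perm (Fin 16)) (m : Fin 16 → Fin 16) (hp : Std l 16 p) (g : Gi 16 p m)
    (k : ℕ) (hk : k < b) (h0 : (m 0).val = a + k) : Col 16 p m := by
  let r : Fin 16 → Fin 16 := fun v => ⟨rt a b (b - k) v.val, h2'' k hk v.val v.isLt⟩
  let r' : Fin 16 → Fin 16 := fun v => ⟨rt a b k v.val, h1 k hk v.val v.isLt⟩
  refine conj p m g r r' ?_ ?_ ?_ ?_
  · intro v
    apply Fin.ext
    exact h2' k hk v.val v.isLt
  · intro v
    apply Fin.ext
    exact h2 k hk v.val v.isLt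
  · intro v
    apply Fin.ext
    show rt a b (b - k) (p v).val = (p (r v)).val
    rw [hp v, hp (r v)]
    exact h3 k hk v.val v.isLt
  · intro g'
    refine hb p _ hp g' ?_
    have e1 : r' 0 = 0 := by
      apply Fin.ext
      show rt a b k 0 = 0
      unfold rt
      rw [if_neg (by omega)]
    show (r (m (r' 0))).val = a
    rw [e1]
    show rt a b (b - k) (m 0).val = a
    rw [h0]
    exact h4 k hk

end Pool.Agent.TH362.TF.FinC

namespace Pool.Agent.TH362.TF

open FinC

theorem fin511 (p : Equiv.Perm (Fin 16)) (m : Fin 16 → Fin 16) (hp : Std [5,11] 16 p)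
    (g : Gi 16 p m) : Col 16 p m := by
  have h1 := al_of p m g (nxt [5, 11]) hp 0
  have h2 : ∀ u < 16, al (nxt [5, 11]) 0 u → 5 ≤ u := by decide +kernel
  have h3 := h2 (m 0).val (m 0).isLt h1
  obtain ⟨k, hk⟩ : ∃ k, (m 0).val = 5 + k := ⟨(m 0).val - 5, by omega⟩
  have hk' : k < 11 := by have := (m 0).isLt; omega
  refine rot [5, 11] 5 11 (by omega) (by decide +kernel) (by decide +kernel) (by decide +kernel)
    (by decide +kernel) (by decide +kernel) (by decide +kernel) ?_ p m hp g k hk' hk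
  intro p m hp g h0
  exact base [5, 11] cl511 pl511 P511 en511 5 (by omega) (by omega) (by decide +kernel)
    (by decide +kernel) (by decide +kernel) (by decide +kernel) t511 p m hp g h0

theorem fin79 (p : Equiv.Perm (Fin 16)) (m : Fin 16 → Fin 16) (hp : Std [7,9] 16 p)
    (g : Gi 16 p m) : Col 16 p m := by
  have h1 := al_of p m g (nxt [7, 9]) hp 0
  have h2 : ∀ u < 16, al (nxt [7, 9]) 0 u → 7 ≤ u := by decide +kernel
  have h3 := h2 (m 0).val (m 0).isLt h1
  obtain ⟨k, hk⟩ : ∃ k, (m 0).val = 7 + k := ⟨(m 0).val - 7, by omega⟩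
  have hk' : k < 9 := by have := (m 0).isLt; omega
  refine rot [7, 9] 7 9 (by omega) (by decide +kernel) (by decide +kernel) (by decide +kernel)
    (by decide +kernel) (by decide +kernel) (by decide +kernel) ?_ p m hp g k hk' hk
  intro p m hp g h0
  exact base [7, 9] cl79 pl79 P79 en79 7 (by omega) (by omega) (by decide +kernel)
    (by decide +kernel) (by decide +kernel) (by decide +kernel) t79 p m hp g h0

theorem fin556 (p : Equiv.Perm (Fin 16)) (m : Fin 16 → Fin 16) (hp : Std [5,5,6] 16 p)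
    (g : Gi 16 p m) : Col 16 p m := by
  have h1 := al_of p m g (nxt [5, 5, 6]) hp 0
  have h2 : ∀ u < 16, al (nxt [5, 5, 6]) 0 u → 5 ≤ u := by decide +kernel
  have h3 := h2 (m 0).val (m 0).isLt h1
  by_cases h10 : (m 0).val < 10
  · obtain ⟨k, hk⟩ : ∃ k, (m 0).val = 5 + k := ⟨(m 0).val - 5, by omega⟩
    have hk' : k < 5 := by omega
    refine rot [5, 5, 6] 5 5 (by omega) (by decide +kernel) (by decide +kernel)
      (by decide +kernel) (by decide +kernel) (by decide +kernel) (by decide +kernel)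
      ?_ p m hp g k hk' hk
    intro p m hp g h0
    exact base [5, 5, 6] cl556 pl556 P556 en556 5 (by omega) (by omega) (by decide +kernel)
      (by decide +kernel) (by decide +kernel) (by decide +kernel) t556a p m hp g h0
  · obtain ⟨k, hk⟩ : ∃ k, (m 0).val = 10 + k := ⟨(m 0).val - 10, by omega⟩
    have hk' : k < 6 := by have := (m 0).isLt; omega
    refine rot [5, 5, 6] 10 6 (by omega) (by decide +kernel) (by decide +kernel)
      (by decide +kernel) (by decide +kernel) (by decide +kernel) (by decide +kernel)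
      ?_ p m hp g k hk' hk
    intro p m hp g h0
    exact base [5, 5, 6] cl556 pl556 P556 en556 10 (by omega) (by omega) (by decide +kernel)
      (by decide +kernel) (by decide +kernel) (by decide +kernel) t556b p m hp g h0

end Pool.Agent.TH362.TF
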