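import Pool.Agent.H16.FV.L.Stm
import Pool.Agent.H16.FV.L.Basic
import Pool.Agent.H16.FW.L.Red2

/-!
The pole graph of the third kind.
-/

set_option autoImplicit false
set_option linter.unusedSectionVars false

namespace Pool.Agent.TH362.TF

open Finset

variable {V E : Type} [Fintype V] [DecidableEq V] [DecidableEq E]

namespace P3

/-! ### The Petersen graph -/

theorem padj_symm : ∀ k l : Fin 10, padj k l = padj l k := by decide

theorem padj_irr : ∀ k : Fin 10, padj k k = false := by decide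

theorem no_tri : ∀ k l m : Fin 10, padj k l = true → padj m l = true → padj k m = false := by
  decide

theorem others : ∀ k l : Fin 10, padj k l = true → ∃ i j : Fin 10, padj k i = true ∧
    padj k j = true ∧ i ≠ j ∧ i ≠ l ∧ j ≠ l ∧ ∀ x, padj k x = true → x = l ∨ x = i ∨ x = j := by
  decide

theorem third : ∀ k l m : Fin 10, padj k l = true → padj m l = true → k ≠ m →
    ∃ d, padj l d = true ∧ d ≠ k ∧ d ≠ m := by
  decide

theorem ne_of_padj {k l : Fin 10} (h : padj k l = true) : k ≠ l := by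
  rintro rfl
  rw [padj_irr] at h
  exact Bool.noConfusion h

/-! ### The quotient map -/

/-- The data of the pole graph. -/
structure Dat (s t : E → V) (S : Finset E) (e f : E) (κ : V → Fin 10) (ρ : Fin 10 → Fin 10 → E)
    (k0 A0 l0 D : Fin 10) (m c0 z : V) : Prop where
  eS : e ∈ S
  fS : f ∈ S
  ef : e ≠ f
  je : Joins κ s t k0 A0 e
  jf : Joins κ s t k0 A0 f
  kA : k0 ≠ A0
  kl : padj k0 l0 = true
  Al : padj A0 l0 = true
  lD : padj l0 D = true
  Dk : D ≠ k0
  DA : D ≠ A0
  hm : κ m = A0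
  hc : κ c0 = l0
  hz : κ z = D
  mem : ∀ k l, padj k l = true → ρ k l ∈ S ∧ ρ k l ≠ e ∧ ρ k l ≠ f ∧ Joins κ s t k l (ρ k l)
  only : ∀ x ∈ S, x ≠ e → x ≠ f → ∀ k l, k ≠ l → Joins κ s t k l x →
    padj k l = true ∧ x = ρ k l

/-- The quotient map. -/
def g (κ : V → Fin 10) (k0 A0 l0 : Fin 10) (m c0 z v : V) : V :=
  if κ v = k0 then v else if κ v = A0 then m else if κ v = l0 then c0 else z

/-- The edges of the pole graph. -/
def SP (s t : E → V) (S : Finset E) (κ : V → Fin 10) (ρ : Fin 10 → Fin 10 → E)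
    (k0 A0 l0 D : Fin 10) : Finset E :=
  S.filter (fun x => κ (s x) = k0 ∨ κ (t x) = k0) ∪ {ρ A0 l0, ρ l0 D}

theorem joins_swap {κ : V → Fin 10} {s t : E → V} {k l : Fin 10} {x : E}
    (h : Joins κ s t k l x) : Joins κ s t l k x := by
  rcases h with h | h
  · exact Or.inr h
  · exact Or.inl h

theorem joins_uniq {κ : V → Fin 10} {s t : E → V} {k l l' : Fin 10} {x : E}
    (h : Joins κ s t k l x) (h' : Joins κ s t k l' x) (hl : k ≠ l) : l = l' := by
  rcases h with ⟨h1, h2⟩ | ⟨h1, h2⟩ <;> rcases h' with ⟨h3, h4⟩ | ⟨h3, h4⟩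
  · exact h2.symm.trans h4
  · exact absurd (h4.symm.trans h2) hl
  · exact absurd (h3.symm.trans h1) hl
  · exact h1.symm.trans h3

/-- If `x` joins `k` and `l` and has an end in `i`, then `i` is `k` or `l`. -/
theorem joins_end {κ : V → Fin 10} {s t : E → V} {k l i : Fin 10} {x : E}
    (h : Joins κ s t k l x) (hi : κ (s x) = i ∨ κ (t x) = i) : i = k ∨ i = l := by
  rcases h with ⟨h1, h2⟩ | ⟨h1, h2⟩ <;> rcases hi with h3 | h3
  · exact Or.inl (h3.symm.trans h1)
  · exact Or.inr (h3.symm.trans h2)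
  · exact Or.inr (h3.symm.trans h1)
  · exact Or.inl (h3.symm.trans h2)

section

variable {s t : E → V} {S : Finset E} {e f : E} {κ : V → Fin 10} {ρ : Fin 10 → Fin 10 → E}
  {k0 A0 l0 D : Fin 10} {m c0 z : V}

theorem Dat.lk (d : Dat s t S e f κ ρ k0 A0 l0 D m c0 z) : l0 ≠ k0 := (ne_of_padj d.kl).symm
theorem Dat.lA (d : Dat s t S e f κ ρ k0 A0 l0 D m c0 z) : l0 ≠ A0 := (ne_of_padj d.Al).symm
theorem Dat.Dl (d : Dat s t S e f κ ρ k0 A0 l0 D m c0 z) : D ≠ l0 := (ne_of_padj d.lD).symm
theorem Dat.nkA (d : Dat s t S e f κ ρ k0 A0 l0 D m c0 z) : padj k0 A0 = false :=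
  no_tri k0 l0 A0 d.kl d.Al

theorem g_k {v : V} (h : κ v = k0) : g κ k0 A0 l0 m c0 z v = v := by
  unfold g
  rw [if_pos h]

theorem Dat.g_A (d : Dat s t S e f κ ρ k0 A0 l0 D m c0 z) {v : V} (h : κ v = A0) :
    g κ k0 A0 l0 m c0 z v = m := by
  unfold g
  rw [if_neg (by rw [h]; exact d.kA.symm), if_pos h]

theorem Dat.g_l (d : Dat s t S e f κ ρ k0 A0 l0 D m c0 z) {v : V} (h : κ v = l0) :
    g κ k0 A0 l0 m c0 z v = c0 := by
  unfold g
  rw [if_neg (by rw [h]; exact d.lk), if_neg (by rw [h]; exact d.lA), if_pos h]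

theorem g_o {v : V} (h1 : κ v ≠ k0) (h2 : κ v ≠ A0) (h3 : κ v ≠ l0) :
    g κ k0 A0 l0 m c0 z v = z := by
  unfold g
  rw [if_neg h1, if_neg h2, if_neg h3]

theorem Dat.g_cases (d : Dat s t S e f κ ρ k0 A0 l0 D m c0 z) (v : V) :
    (κ v = k0 ∧ g κ k0 A0 l0 m c0 z v = v) ∨ (κ v = A0 ∧ g κ k0 A0 l0 m c0 z v = m) ∨
    (κ v = l0 ∧ g κ k0 A0 l0 m c0 z v = c0) ∨
    (κ v ≠ k0 ∧ κ v ≠ A0 ∧ κ v ≠ l0 ∧ g κ k0 A0 l0 m c0 z v = z) := by
  by_cases h1 : κ v = k0
  · exact Or.inl ⟨h1, g_k h1⟩
  · by_cases h2 : κ v = A0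
    · exact Or.inr (Or.inl ⟨h2, d.g_A h2⟩)
    · by_cases h3 : κ v = l0
      · exact Or.inr (Or.inr (Or.inl ⟨h3, d.g_l h3⟩))
      · exact Or.inr (Or.inr (Or.inr ⟨h1, h2, h3, g_o h1 h2 h3⟩))

theorem Dat.g_eq_k (d : Dat s t S e f κ ρ k0 A0 l0 D m c0 z) {u v : V} (hv : κ v = k0) :
    g κ k0 A0 l0 m c0 z u = v ↔ u = v := by
  rcases d.g_cases u with ⟨h1, h2⟩ | ⟨h1, h2⟩ | ⟨h1, h2⟩ | ⟨h1, _, _, h2⟩ <;> rw [h2]
  · constructor
    · intro h
      rw [← h, d.hm] at hv
      exact absurd hv.symm d.kA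
    · intro h
      rw [← h, h1] at hv
      exact absurd hv.symm d.kA
  · constructor
    · intro h
      rw [← h, d.hc] at hv
      exact absurd hv d.lk
    · intro h
      rw [← h, h1] at hv
      exact absurd hv d.lk
  · constructor
    · intro h
      rw [← h, d.hz] at hv
      exact absurd hv d.Dk
    · intro h
      rw [← h] at hv
      exact absurd hv h1

theorem Dat.g_eq_m (d : Dat s t S e f κ ρ k0 A0 l0 D m c0 z) {u : V} :
    g κ k0 A0 l0 m c0 z u = m ↔ κ u = A0 := by
  rcases d.g_cases u with ⟨h1, h2⟩ | ⟨h1, h2⟩ | ⟨h1, h2⟩ | ⟨_, h1, _, h2⟩ <;> rw [h2]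
  · constructor
    · intro h
      rw [h]
      exact d.hm
    · intro h
      rw [h1] at h
      exact absurd h d.kA
  · exact ⟨fun _ => h1, fun _ => rfl⟩
  · constructor
    · intro h
      have := d.hc
      rw [h, d.hm] at this
      exact absurd this.symm d.lA
    · intro h
      rw [h1] at h
      exact absurd h d.lA
  · constructor
    · intro h
      have := d.hz
      rw [h, d.hm] at this
      exact absurd this.symm d.DA
    · intro h
      exact absurd h h1

theorem Dat.g_eq_c (d : Dat s t S e f κ ρ k0 A0 l0 D m c0 z) {u : V} :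
    g κ k0 A0 l0 m c0 z u = c0 ↔ κ u = l0 := by
  rcases d.g_cases u with ⟨h1, h2⟩ | ⟨h1, h2⟩ | ⟨h1, h2⟩ | ⟨_, _, h1, h2⟩ <;> rw [h2]
  · constructor
    · intro h
      rw [h]
      exact d.hc
    · intro h
      rw [h1] at h
      exact absurd h.symm d.lk
  · constructor
    · intro h
      have := d.hm
      rw [h, d.hc] at this
      exact absurd this d.lA
    · intro h
      rw [h1] at h
      exact absurd h.symm d.lA
  · exact ⟨fun _ => h1, fun _ => rfl⟩
  · constructor
    · intro h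
      have := d.hz
      rw [h, d.hc] at this
      exact absurd this.symm d.Dl
    · intro h
      exact absurd h h1

/-! ### The edges -/

theorem mem_SP {x : E} : x ∈ SP s t S κ ρ k0 A0 l0 D ↔
    (x ∈ S ∧ (κ (s x) = k0 ∨ κ (t x) = k0)) ∨ x = ρ A0 l0 ∨ x = ρ l0 D := by
  unfold SP
  rw [mem_union, mem_filter, mem_insert, mem_singleton]

theorem Dat.jy (d : Dat s t S e f κ ρ k0 A0 l0 D m c0 z) : Joins κ s t A0 l0 (ρ A0 l0) :=
  (d.mem A0 l0 d.Al).2.2.2

theorem Dat.jr (d : Dat s t S e f κ ρ k0 A0 l0 D m c0 z) : Joins κ s t l0 D (ρ l0 D) :=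
  (d.mem l0 D d.lD).2.2.2

theorem Dat.yr (d : Dat s t S e f κ ρ k0 A0 l0 D m c0 z) : ρ A0 l0 ≠ ρ l0 D := by
  intro h
  have h1 := joins_swap d.jy
  rw [h] at h1
  exact d.DA (joins_uniq h1 d.jr d.lA).symm

theorem Dat.sub (d : Dat s t S e f κ ρ k0 A0 l0 D m c0 z) : SP s t S κ ρ k0 A0 l0 D ⊆ S := by
  intro x hx
  rcases mem_SP.mp hx with h | h | h
  · exact h.1
  · rw [h]
    exact (d.mem A0 l0 d.Al).1
  · rw [h]
    exact (d.mem l0 D d.lD).1

/-- no end of `y` is in the class `k0` -/
theorem Dat.y_k (d : Dat s t S e f κ ρ k0 A0 l0 D m c0 z) :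
    ¬ (κ (s (ρ A0 l0)) = k0 ∨ κ (t (ρ A0 l0)) = k0) := by
  intro h
  rcases joins_end d.jy h with h | h
  · exact d.kA h
  · exact d.lk h.symm

theorem Dat.r_k (d : Dat s t S e f κ ρ k0 A0 l0 D m c0 z) :
    ¬ (κ (s (ρ l0 D)) = k0 ∨ κ (t (ρ l0 D)) = k0) := by
  intro h
  rcases joins_end d.jr h with h | h
  · exact d.lk h.symm
  · exact d.Dk h.symm

theorem Dat.lt (d : Dat s t S e f κ ρ k0 A0 l0 D m c0 z) :
    (SP s t S κ ρ k0 A0 l0 D).card < S.card := by
  refine Finset.card_lt_card ⟨d.sub, fun hsub => ?_⟩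
  obtain ⟨i, _, hi, _, _, hil, _, _⟩ := others A0 l0 d.Al
  obtain ⟨h1, _, _, h2⟩ := d.mem A0 i hi
  have hik : i ≠ k0 := by
    rintro rfl
    have := d.nkA
    rw [padj_symm, hi] at this
    exact Bool.noConfusion this
  rcases mem_SP.mp (hsub h1) with h | h | h
  · rcases joins_end h2 h.2 with h | h
    · exact d.kA h
    · exact hik h.symm
  · have h3 := d.jy
    rw [← h] at h3
    exact hil (joins_uniq h2 h3 (ne_of_padj hi))
  · have h3 := d.jr
    rw [← h] at h3
    have h4 : A0 = l0 ∨ A0 = D := joins_end h3 (by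
      rcases h2 with h5 | h5
      · exact Or.inl h5.1
      · exact Or.inr h5.2)
    rcases h4 with h4 | h4
    · exact d.lA h4.symm
    · exact d.DA h4.symm

/-- An edge between different classes with an end in the class `k0`. -/
theorem Dat.cls (d : Dat s t S e f κ ρ k0 A0 l0 D m c0 z) {x : E} (hx : x ∈ S)
    (hk : κ (s x) = k0 ∨ κ (t x) = k0) (hne : κ (s x) ≠ κ (t x)) :
    x = e ∨ x = f ∨ ∃ l, padj k0 l = true ∧ x = ρ k0 l ∧ Joins κ s t k0 l x := by
  by_cases he : x = e
  · exact Or.inl he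
  · by_cases hf : x = f
    · exact Or.inr (Or.inl hf)
    · refine Or.inr (Or.inr ?_)
      rcases hk with h | h
      · have hj : Joins κ s t k0 (κ (t x)) x := Or.inl ⟨h, rfl⟩
        have h1 := d.only x hx he hf k0 (κ (t x)) (fun h2 => hne (h.trans h2)) hj
        exact ⟨_, h1.1, h1.2, hj⟩
      · have hj : Joins κ s t k0 (κ (s x)) x := Or.inr ⟨rfl, h⟩
        have h1 := d.only x hx he hf k0 (κ (s x)) (fun h2 => hne (h2.symm.trans h.symm)) hj
        exact ⟨_, h1.1, h1.2, hj⟩

/-! ### Degrees and conservation -/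

/-- Sums at a vertex of the class `k0`. -/
theorem Dat.sum_k {M : Type} [AddCommMonoid M] (d : Dat s t S e f κ ρ k0 A0 l0 D m c0 z)
    (φ : E → M) {v : V} (hv : κ v = k0) :
    ∑ x ∈ SP s t S κ ρ k0 A0 l0 D, ((if g κ k0 A0 l0 m c0 z (s x) = v then φ x else 0) +
      (if g κ k0 A0 l0 m c0 z (t x) = v then φ x else 0)) =
    ∑ x ∈ S, ((if s x = v then φ x else 0) + (if t x = v then φ x else 0)) := by
  simp only [d.g_eq_k hv]
  refine Finset.sum_subset d.sub fun x hx hx' => ?_
  rw [if_neg, if_neg, add_zero]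
  · intro h
    exact hx' (mem_SP.mpr (Or.inl ⟨hx, Or.inr (by rw [h]; exact hv)⟩))
  · intro h
    exact hx' (mem_SP.mpr (Or.inl ⟨hx, Or.inl (by rw [h]; exact hv)⟩))

/-- An edge joining `A` and another class counts once at `A`. -/
theorem one_end {M : Type} [AddCommMonoid M] (φ : E → M) {x : E} {k l : Fin 10}
    (h : Joins κ s t k l x) (hkl : k ≠ l) :
    ((if κ (s x) = l then φ x else 0) + (if κ (t x) = l then φ x else 0)) = φ x := by
  rcases h with ⟨h1, h2⟩ | ⟨h1, h2⟩
  · rw [h1, h2, if_neg hkl, if_pos rfl, zero_add]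
  · rw [h1, h2, if_pos rfl, if_neg hkl, add_zero]

theorem no_end {M : Type} [AddCommMonoid M] (φ : E → M) {x : E} {l : Fin 10}
    (h : ¬ (κ (s x) = l ∨ κ (t x) = l)) :
    ((if κ (s x) = l then φ x else 0) + (if κ (t x) = l then φ x else 0)) = 0 := by
  rw [if_neg (fun h' => h (Or.inl h')), if_neg (fun h' => h (Or.inr h')), add_zero]

theorem Dat.at_m (d : Dat s t S e f κ ρ k0 A0 l0 D m c0 z) {φ : E → F}
    (h : Cons (fun x => g κ k0 A0 l0 m c0 z (s x)) (fun x => g κ k0 A0 l0 m c0 z (t x))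
      (SP s t S κ ρ k0 A0 l0 D) φ m) : φ e + φ f + φ (ρ A0 l0) = 0 := by
  unfold Cons at h
  simp only [d.g_eq_m] at h
  have hye : ρ A0 l0 ≠ e := (d.mem A0 l0 d.Al).2.1
  have hyf : ρ A0 l0 ≠ f := (d.mem A0 l0 d.Al).2.2.1
  have hsub : ({e, f, ρ A0 l0} : Finset E) ⊆ SP s t S κ ρ k0 A0 l0 D := by
    intro x hx
    rw [mem_insert, mem_insert, mem_singleton] at hx
    rcases hx with rfl | rfl | rfl
    · refine mem_SP.mpr (Or.inl ⟨d.eS, ?_⟩)
      rcases d.je with h | h
      · exact Or.inl h.1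
      · exact Or.inr h.2
    · refine mem_SP.mpr (Or.inl ⟨d.fS, ?_⟩)
      rcases d.jf with h | h
      · exact Or.inl h.1
      · exact Or.inr h.2
    · exact mem_SP.mpr (Or.inr (Or.inl rfl))
  have h1 := Finset.sum_subset hsub (f := fun x => (if κ (s x) = A0 then φ x else 0) +
    (if κ (t x) = A0 then φ x else 0)) (fun x hx hx' => by
      rw [mem_insert, mem_insert, mem_singleton] at hx'
      refine no_end φ fun hA => ?_
      rcases mem_SP.mp hx with h2 | h2 | h2
      · have hne : κ (s x) ≠ κ (t x) := by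
          intro h3
          rcases h2.2 with h4 | h4 <;> rcases hA with h5 | h5
          · exact d.kA (h4.symm.trans h5)
          · exact d.kA (h4.symm.trans (h3.trans h5))
          · exact d.kA (h4.symm.trans (h3.symm.trans h5))
          · exact d.kA (h4.symm.trans h5)
        rcases d.cls h2.1 h2.2 hne with h3 | h3 | ⟨l, h3, _, h4⟩
        · exact hx' (Or.inl h3)
        · exact hx' (Or.inr (Or.inl h3))
        · rcases joins_end h4 hA with h5 | h5
          · exact d.kA h5.symm
          · rw [← h5, d.nkA] at h3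
            exact Bool.noConfusion h3
      · exact hx' (Or.inr (Or.inr h2))
      · rw [h2] at hA
        rcases joins_end d.jr hA with h3 | h3
        · exact d.lA h3.symm
        · exact d.DA h3.symm)
  rw [h] at h1
  rw [Finset.sum_insert (by
      rw [mem_insert, mem_singleton]
      rintro (h2 | h2)
      · exact d.ef h2
      · exact hye h2.symm), Finset.sum_insert (by
      rw [mem_singleton]
      exact fun h2 => hyf h2.symm), Finset.sum_singleton, one_end φ d.je d.kA,
    one_end φ d.jf d.kA, one_end φ (joins_swap d.jy) d.lA] at h1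
  rw [add_assoc]
  exact h1

theorem Dat.at_c (d : Dat s t S e f κ ρ k0 A0 l0 D m c0 z) {φ : E → F}
    (h : Cons (fun x => g κ k0 A0 l0 m c0 z (s x)) (fun x => g κ k0 A0 l0 m c0 z (t x))
      (SP s t S κ ρ k0 A0 l0 D) φ c0) : φ (ρ k0 l0) + φ (ρ A0 l0) + φ (ρ l0 D) = 0 := by
  unfold Cons at h
  simp only [d.g_eq_c] at h
  have ha := d.mem k0 l0 d.kl
  have hak : κ (s (ρ k0 l0)) = k0 ∨ κ (t (ρ k0 l0)) = k0 := by
    rcases ha.2.2.2 with h | h
    · exact Or.inl h.1
    · exact Or.inr h.2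
  have hay : ρ k0 l0 ≠ ρ A0 l0 := by
    intro h2
    rw [h2] at hak
    exact d.y_k hak
  have har : ρ k0 l0 ≠ ρ l0 D := by
    intro h2
    rw [h2] at hak
    exact d.r_k hak
  have hsub : ({ρ k0 l0, ρ A0 l0, ρ l0 D} : Finset E) ⊆ SP s t S κ ρ k0 A0 l0 D := by
    intro x hx
    rw [mem_insert, mem_insert, mem_singleton] at hx
    rcases hx with rfl | rfl | rfl
    · exact mem_SP.mpr (Or.inl ⟨ha.1, hak⟩)
    · exact mem_SP.mpr (Or.inr (Or.inl rfl))
    · exact mem_SP.mpr (Or.inr (Or.inr rfl))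
  have h1 := Finset.sum_subset hsub (f := fun x => (if κ (s x) = l0 then φ x else 0) +
    (if κ (t x) = l0 then φ x else 0)) (fun x hx hx' => by
      rw [mem_insert, mem_insert, mem_singleton] at hx'
      refine no_end φ fun hA => ?_
      rcases mem_SP.mp hx with h2 | h2 | h2
      · have hne : κ (s x) ≠ κ (t x) := by
          intro h3
          rcases h2.2 with h4 | h4 <;> rcases hA with h5 | h5
          · exact d.lk (h5.symm.trans h4)
          · exact d.lk (h5.symm.trans (h3.symm.trans h4))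
          · exact d.lk (h5.symm.trans (h3.trans h4))
          · exact d.lk (h5.symm.trans h4)
        rcases d.cls h2.1 h2.2 hne with h3 | h3 | ⟨l, h3, h6, h4⟩
        · have h7 := d.je
          rw [← h3] at h7
          rcases joins_end h7 hA with h5 | h5
          · exact d.lk h5
          · exact d.lA h5
        · have h7 := d.jf
          rw [← h3] at h7
          rcases joins_end h7 hA with h5 | h5
          · exact d.lk h5
          · exact d.lA h5
        · rcases joins_end h4 hA with h5 | h5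
          · exact d.lk h5
          · rw [← h5] at h6
            exact hx' (Or.inl h6)
      · exact hx' (Or.inr (Or.inl h2))
      · exact hx' (Or.inr (Or.inr h2)))
  rw [h] at h1
  rw [Finset.sum_insert (by
      rw [mem_insert, mem_singleton]
      rintro (h2 | h2)
      · exact hay h2
      · exact har h2), Finset.sum_insert (by
      rw [mem_singleton]
      exact d.yr), Finset.sum_singleton, one_end φ ha.2.2.2 d.lk.symm,
    one_end φ d.jy d.lA.symm, one_end φ (joins_swap d.jr) d.Dl] at h1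
  rw [add_assoc]
  exact h1

/-- The vertices of odd degree. -/
theorem Dat.odd (d : Dat s t S e f κ ρ k0 A0 l0 D m c0 z)
    (ho : ((odd s t S).filter (fun v => κ v = k0)).card ≤ 4) :
    (odd (fun x => g κ k0 A0 l0 m c0 z (s x)) (fun x => g κ k0 A0 l0 m c0 z (t x))
      (SP s t S κ ρ k0 A0 l0 D)).card ≤ 7 := by
  have hsub : TF.odd (fun x => g κ k0 A0 l0 m c0 z (s x)) (fun x => g κ k0 A0 l0 m c0 z (t x))
      (SP s t S κ ρ k0 A0 l0 D) ⊆ (TF.odd s t S).filter (fun v => κ v = k0) ∪ {m, c0, z} := by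
    intro v hv
    unfold TF.odd at hv
    rw [mem_filter] at hv
    rw [mem_union, mem_filter, mem_insert, mem_insert, mem_singleton]
    by_cases hk : κ v = k0
    · left
      refine ⟨?_, hk⟩
      unfold TF.odd
      rw [mem_filter]
      refine ⟨mem_univ v, ?_⟩
      have h1 := d.sum_k (fun _ => (1 : ℕ)) hk
      have h2 : deg (fun x => g κ k0 A0 l0 m c0 z (s x)) (fun x => g κ k0 A0 l0 m c0 z (t x))
        (SP s t S κ ρ k0 A0 l0 D) v = deg s t S v := h1
      rw [← h2]
      exact hv.2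
    · right
      by_contra hcon
      push Not at hcon
      have hg : ∀ u, g κ k0 A0 l0 m c0 z u ≠ v := by
        intro u hu
        rcases d.g_cases u with ⟨h1, h2⟩ | ⟨h1, h2⟩ | ⟨h1, h2⟩ | ⟨_, _, h1, h2⟩
        · rw [h2] at hu
          rw [hu] at h1
          exact hk h1
        · exact hcon.1 (hu.symm.trans h2)
        · exact hcon.2.1 (hu.symm.trans h2)
        · exact hcon.2.2 (hu.symm.trans h2)
      have h1 : deg (fun x => g κ k0 A0 l0 m c0 z (s x)) (fun x => g κ k0 A0 l0 m c0 z (t x))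
        (SP s t S κ ρ k0 A0 l0 D) v = 0 := by
        unfold deg
        refine Finset.sum_eq_zero fun x _ => ?_
        rw [if_neg (hg _), if_neg (hg _), add_zero]
      rw [h1] at hv
      exact absurd hv.2 (by decide)
  refine (Finset.card_le_card hsub).trans ((Finset.card_union_le _ _).trans ?_)
  have h3 : ({m, c0, z} : Finset V).card ≤ 3 := Finset.card_le_three
  omega

/-! ### Cuts of size one -/

/-- both ends of an edge of the pole graph, no end of which is in the cut -/
theorem Dat.n1 (d : Dat s t S e f κ ρ k0 A0 l0 D m c0 z) (h1 : N1 s t S)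
    (h2 : ∀ x : V → Bool, (cut s t S x).card ≠ 2) :
    N1 (fun x => g κ k0 A0 l0 m c0 z (s x)) (fun x => g κ k0 A0 l0 m c0 z (t x))
      (SP s t S κ ρ k0 A0 l0 D) := by
  intro x hx
  obtain ⟨G, hG⟩ : ∃ G : V → V, G = g κ k0 A0 l0 m c0 z := ⟨_, rfl⟩
  rw [← hG] at hx
  have hmem : ∀ u, u ∈ cut (fun x => G (s x)) (fun x => G (t x))
      (SP s t S κ ρ k0 A0 l0 D) x ↔ u ∈ SP s t S κ ρ k0 A0 l0 D ∧ x (G (s u)) ≠ x (G (t u)) := by
    intro u
    unfold cut
    rw [mem_filter]
  have Gk : ∀ v, κ v = k0 → G v = v := fun v hv => by rw [hG]; exact g_k hv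
  have GA : ∀ v, κ v = A0 → G v = m := fun v hv => by rw [hG]; exact d.g_A hv
  have Gl : ∀ v, κ v = l0 → G v = c0 := fun v hv => by rw [hG]; exact d.g_l hv
  have Go : ∀ v, κ v ≠ k0 → κ v ≠ A0 → κ v ≠ l0 → G v = z := fun v h1 h2 h3 => by
    rw [hG]; exact g_o h1 h2 h3
  have hyS : ρ A0 l0 ∈ SP s t S κ ρ k0 A0 l0 D := mem_SP.mpr (Or.inr (Or.inl rfl))
  have hrS : ρ l0 D ∈ SP s t S κ ρ k0 A0 l0 D := mem_SP.mpr (Or.inr (Or.inr rfl))
  -- the edges `y` and `r` in the cut
  have hy : x m ≠ x c0 → ρ A0 l0 ∈ cut (fun x => G (s x)) (fun x => G (t x))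
      (SP s t S κ ρ k0 A0 l0 D) x := by
    intro hne
    rw [hmem]
    refine ⟨hyS, ?_⟩
    rcases d.jy with ⟨h3, h4⟩ | ⟨h3, h4⟩
    · rw [GA _ h3, Gl _ h4]
      exact hne
    · rw [Gl _ h3, GA _ h4]
      exact hne.symm
  have hr : x c0 ≠ x z → ρ l0 D ∈ cut (fun x => G (s x)) (fun x => G (t x))
      (SP s t S κ ρ k0 A0 l0 D) x := by
    intro hne
    rw [hmem]
    refine ⟨hrS, ?_⟩
    rcases d.jr with ⟨h3, h4⟩ | ⟨h3, h4⟩
    · rw [Gl _ h3, Go _ (by rw [h4]; exact d.Dk) (by rw [h4]; exact d.DA) (by rw [h4]; exact d.Dl)]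
      exact hne
    · rw [Gl _ h4, Go _ (by rw [h3]; exact d.Dk) (by rw [h3]; exact d.DA) (by rw [h3]; exact d.Dl)]
      exact hne.symm
  obtain ⟨u0, hu0⟩ := Finset.card_eq_one.mp hx
  -- the other edges at the class `k0`
  have hin : ∀ u ∈ S, (κ (s u) = k0 ∨ κ (t u) = k0) → u ≠ u0 → x (G (s u)) = x (G (t u)) := by
    intro u hu hk hne
    by_contra hcon
    have h3 := (hmem u).mpr ⟨mem_SP.mpr (Or.inl ⟨hu, hk⟩), hcon⟩
    rw [hu0, mem_singleton] at h3
    exact hne h3
  -- a cut inside the class `k0`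
  have hcutk : ∀ (β : Bool) (T : Finset E), (∀ u ∈ T, u ∈ S) →
      (∀ u ∈ S, (κ (s u) = k0 ∨ κ (t u) = k0) → x (G (s u)) = x (G (t u))) →
      (∀ u ∈ T, ∀ v, (v = s u ∨ v = t u) → κ v ≠ k0 → x (G v) = β) →
      (∀ u ∈ T, (κ (s u) = k0 ∧ κ (t u) ≠ k0) ∨ (κ (s u) ≠ k0 ∧ κ (t u) = k0)) →
      (∀ u ∈ S, u ∉ T → (κ (s u) = k0 ∨ κ (t u) = k0) → κ (s u) ≠ κ (t u) →
        x (G (s u)) ≠ β ∨ x (G (t u)) ≠ β) →
      cut s t S (fun v => decide (κ v = k0 ∧ x v = β)) = T := by
    intro β T hTS hall hTβ hTk hnT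
    ext u
    unfold cut
    rw [mem_filter]
    constructor
    · rintro ⟨huS, hne⟩
      change decide (κ (s u) = k0 ∧ x (s u) = β) ≠ decide (κ (t u) = k0 ∧ x (t u) = β) at hne
      by_contra huT
      have hk : κ (s u) = k0 ∨ κ (t u) = k0 := by
        by_contra hcon
        push Not at hcon
        apply hne
        rw [decide_eq_false (fun h => hcon.1 h.1), decide_eq_false (fun h => hcon.2 h.1)]
      have hxx := hall u huS hk
      by_cases hκ : κ (s u) = κ (t u)
      · have hks : κ (s u) = k0 := by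
          rcases hk with h | h
          · exact h
          · exact hκ.trans h
        have hkt : κ (t u) = k0 := hκ.symm.trans hks
        rw [Gk _ hks, Gk _ hkt] at hxx
        apply hne
        simp only [hks, hkt, hxx]
      · have h3 := hnT u huS huT hk hκ
        have h4 : x (G (s u)) ≠ β ∧ x (G (t u)) ≠ β := by
          rcases h3 with h3 | h3
          · exact ⟨h3, by rw [← hxx]; exact h3⟩
          · exact ⟨by rw [hxx]; exact h3, h3⟩
        apply hne
        have e1 : ¬ (κ (s u) = k0 ∧ x (s u) = β) := by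
          rintro ⟨h5, h6⟩
          rw [Gk _ h5] at h4
          exact h4.1 h6
        have e2 : ¬ (κ (t u) = k0 ∧ x (t u) = β) := by
          rintro ⟨h5, h6⟩
          rw [Gk _ h5] at h4
          exact h4.2 h6
        rw [decide_eq_false e1, decide_eq_false e2]
    · intro huT
      refine ⟨hTS u huT, ?_⟩
      change decide (κ (s u) = k0 ∧ x (s u) = β) ≠ decide (κ (t u) = k0 ∧ x (t u) = β)
      rcases hTk u huT with ⟨h3, h4⟩ | ⟨h3, h4⟩
      · have h5 := hall u (hTS u huT) (Or.inl h3)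
        rw [hTβ u huT (t u) (Or.inr rfl) h4, Gk _ h3] at h5
        rw [decide_eq_true (show κ (s u) = k0 ∧ x (s u) = β from ⟨h3, h5⟩),
          decide_eq_false (fun h => h4 h.1)]
        decide
      · have h5 := hall u (hTS u huT) (Or.inr h4)
        rw [hTβ u huT (s u) (Or.inl rfl) h3, Gk _ h4] at h5
        rw [decide_eq_true (show κ (t u) = k0 ∧ x (t u) = β from ⟨h4, h5.symm⟩),
          decide_eq_false (fun h => h3 h.1)]
        decide
  by_cases hmz : x m = x z
  · by_cases hmc : x m = x c0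
    · -- all three values are equal
      have hout : ∀ v, κ v ≠ k0 → x (G v) = x m := by
        intro v hv
        by_cases h3 : κ v = A0
        · rw [GA _ h3]
        · by_cases h4 : κ v = l0
          · rw [Gl _ h4, hmc]
          · rw [Go _ hv h3 h4, hmz]
      apply h1 (fun v => x (G v))
      have e : cut s t S (fun v => x (G v)) = cut (fun x => G (s x)) (fun x => G (t x))
          (SP s t S κ ρ k0 A0 l0 D) x := by
        ext u
        rw [hmem]
        unfold cut
        rw [mem_filter]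
        constructor
        · rintro ⟨h3, h4⟩
          refine ⟨mem_SP.mpr (Or.inl ⟨h3, ?_⟩), h4⟩
          by_contra hcon
          push Not at hcon
          exact h4 ((hout _ hcon.1).trans (hout _ hcon.2).symm)
        · rintro ⟨h3, h4⟩
          exact ⟨d.sub h3, h4⟩
      rw [e]
      exact hx
    · -- `y` and `r` are in the cut
      have h3 := hy hmc
      have h4 := hr (by rw [← hmz]; exact fun h => hmc h.symm)
      rw [hu0, mem_singleton] at h3 h4
      exact d.yr (h3.trans h4.symm)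
  · by_cases hmc : x m = x c0
    · -- `r` is in the cut
      have h3 := hr (by rw [← hmc]; exact hmz)
      rw [hu0, mem_singleton] at h3
      have hall : ∀ u ∈ S, (κ (s u) = k0 ∨ κ (t u) = k0) → x (G (s u)) = x (G (t u)) := by
        intro u hu hk
        refine hin u hu hk ?_
        rintro rfl
        rw [← h3] at hk
        exact d.r_k hk
      obtain ⟨i, j, hi, hj, hij, hil, hjl, hoth⟩ := others k0 l0 d.kl
      have hA : ∀ l, padj k0 l = true → l ≠ A0 := by
        rintro l hl rfl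
        have := d.nkA
        rw [hl] at this
        exact Bool.noConfusion this
      have hjn : ∀ l, padj k0 l = true → l ≠ l0 → ∀ v, (v = s (ρ k0 l) ∨ v = t (ρ k0 l)) →
          κ v ≠ k0 → x (G v) = x z := by
        intro l hl hll v hv hvk
        have h5 : κ v = k0 ∨ κ v = l := by
          refine joins_end (d.mem k0 l hl).2.2.2 ?_
          rcases hv with rfl | rfl
          · exact Or.inl rfl
          · exact Or.inr rfl
        have h6 : κ v = l := by
          rcases h5 with h5 | h5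
          · exact absurd h5 hvk
          · exact h5
        rw [Go _ hvk (by rw [h6]; exact hA l hl) (by rw [h6]; exact hll)]
      have hkk : ∀ l, padj k0 l = true → (κ (s (ρ k0 l)) = k0 ∧ κ (t (ρ k0 l)) ≠ k0) ∨
          (κ (s (ρ k0 l)) ≠ k0 ∧ κ (t (ρ k0 l)) = k0) := by
        intro l hl
        have hne := ne_of_padj hl
        rcases (d.mem k0 l hl).2.2.2 with ⟨h5, h6⟩ | ⟨h5, h6⟩
        · exact Or.inl ⟨h5, by rw [h6]; exact hne.symm⟩
        · exact Or.inr ⟨by rw [h5]; exact hne.symm, h6⟩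
      have hcut := hcutk (x z) {ρ k0 i, ρ k0 j} (by
          intro u hu
          rw [mem_insert, mem_singleton] at hu
          rcases hu with rfl | rfl
          · exact (d.mem k0 i hi).1
          · exact (d.mem k0 j hj).1) hall (by
          intro u hu
          rw [mem_insert, mem_singleton] at hu
          rcases hu with rfl | rfl
          · exact hjn i hi hil
          · exact hjn j hj hjl) (by
          intro u hu
          rw [mem_insert, mem_singleton] at hu
          rcases hu with rfl | rfl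
          · exact hkk i hi
          · exact hkk j hj) (by
          intro u hu huT hk hne
          rw [mem_insert, mem_singleton] at huT
          have hgen : ∀ l, Joins κ s t k0 l u → (l = A0 ∨ l = l0) →
              x (G (s u)) ≠ x z ∨ x (G (t u)) ≠ x z := by
            intro l hl hlA
            have hv : ∀ v, κ v = l → x (G v) ≠ x z := by
              intro v hv
              rcases hlA with rfl | rfl
              · rw [GA _ hv]
                exact hmz
              · rw [Gl _ hv, ← hmc]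
                exact hmz
            rcases hl with ⟨_, h6⟩ | ⟨h6, _⟩
            · exact Or.inr (hv _ h6)
            · exact Or.inl (hv _ h6)
          rcases d.cls hu hk hne with h5 | h5 | ⟨l, h5, h6, h7⟩
          · exact hgen A0 (by rw [h5]; exact d.je) (Or.inl rfl)
          · exact hgen A0 (by rw [h5]; exact d.jf) (Or.inl rfl)
          · rcases hoth l h5 with h8 | h8 | h8
            · exact hgen l h7 (Or.inr h8)
            · rw [h8] at h6
              exact absurd (Or.inl h6) huT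
            · rw [h8] at h6
              exact absurd (Or.inr h6) huT)
      apply h2 (fun v => decide (κ v = k0 ∧ x v = x z))
      rw [hcut, Finset.card_pair]
      intro h5
      have h6 := (d.mem k0 i hi).2.2.2
      rw [h5] at h6
      exact hij (joins_uniq h6 (d.mem k0 j hj).2.2.2 (ne_of_padj hi))
    · -- `y` is in the cut
      have h3 := hy hmc
      rw [hu0, mem_singleton] at h3
      have hcz : x c0 = x z := by
        revert hmz hmc
        cases x m <;> cases x c0 <;> cases x z <;> decide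
      have hall : ∀ u ∈ S, (κ (s u) = k0 ∨ κ (t u) = k0) → x (G (s u)) = x (G (t u)) := by
        intro u hu hk
        refine hin u hu hk ?_
        rintro rfl
        rw [← h3] at hk
        exact d.y_k hk
      have hjA : ∀ u, Joins κ s t k0 A0 u → ∀ v, (v = s u ∨ v = t u) → κ v ≠ k0 →
          x (G v) = x m := by
        intro u hu v hv hvk
        have h5 : κ v = k0 ∨ κ v = A0 := by
          refine joins_end hu ?_
          rcases hv with rfl | rfl
          · exact Or.inl rfl
          · exact Or.inr rfl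
        rcases h5 with h5 | h5
        · exact absurd h5 hvk
        · rw [GA _ h5]
      have hkk : ∀ u, Joins κ s t k0 A0 u → (κ (s u) = k0 ∧ κ (t u) ≠ k0) ∨
          (κ (s u) ≠ k0 ∧ κ (t u) = k0) := by
        intro u hu
        rcases hu with ⟨h5, h6⟩ | ⟨h5, h6⟩
        · exact Or.inl ⟨h5, by rw [h6]; exact d.kA.symm⟩
        · exact Or.inr ⟨by rw [h5]; exact d.kA.symm, h6⟩
      have hcut := hcutk (x m) {e, f} (by
          intro u hu
          rw [mem_insert, mem_singleton] at hu
          rcases hu with rfl | rfl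
          · exact d.eS
          · exact d.fS) hall (by
          intro u hu
          rw [mem_insert, mem_singleton] at hu
          rcases hu with rfl | rfl
          · exact hjA _ d.je
          · exact hjA _ d.jf) (by
          intro u hu
          rw [mem_insert, mem_singleton] at hu
          rcases hu with rfl | rfl
          · exact hkk _ d.je
          · exact hkk _ d.jf) (by
          intro u hu huT hk hne
          rw [mem_insert, mem_singleton] at huT
          rcases d.cls hu hk hne with h5 | h5 | ⟨l, h5, _, h7⟩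
          · exact absurd (Or.inl h5) huT
          · exact absurd (Or.inr h5) huT
          · have hlA : l ≠ A0 := by
              rintro rfl
              have := d.nkA
              rw [h5] at this
              exact Bool.noConfusion this
            have hv : ∀ v, κ v = l → x (G v) ≠ x m := by
              intro v hv
              by_cases h8 : l = l0
              · rw [Gl _ (hv.trans h8)]
                exact fun h => hmc h.symm
              · rw [Go _ (by rw [hv]; exact (ne_of_padj h5).symm) (by rw [hv]; exact hlA)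
                  (by rw [hv]; exact h8)]
                exact fun h => hmz h.symm
            rcases h7 with ⟨_, h8⟩ | ⟨h8, _⟩
            · exact Or.inr (hv _ h8)
            · exact Or.inl (hv _ h8))
      apply h2 (fun v => decide (κ v = k0 ∧ x v = x m))
      rw [hcut, Finset.card_pair d.ef]

end

theorem F_self (a : F) : a + a = 0 := by
  revert a
  decide

/-- The general lemma. -/
theorem gen {s t : E → V} {S : Finset E} (h : MinC s t S) {e f : E} {w a b : V}
    {κ : V → Fin 10} {ρ : Fin 10 → Fin 10 → E} (q : Sit s t S e f w a b κ ρ)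
    (hab : κ a = κ b) (k0 A0 l0 : Fin 10) (je : Joins κ s t k0 A0 e) (jf : Joins κ s t k0 A0 f)
    (kA : k0 ≠ A0) (hk : padj k0 l0 = true) (hA : padj A0 l0 = true)
    (ho : ((odd s t S).filter (fun v => κ v = k0)).card ≤ 4) :
    ∃ φ, Inn s t S κ k0 φ ∧ φ e + φ f ≠ 0 ∧ φ e + φ f ≠ φ (ρ k0 l0) := by
  have hex : ∀ k l, padj k l = true → ¬ (k = κ a ∧ l = κ b ∨ k = κ b ∧ l = κ a) := by
    intro k l hkl hcon
    apply ne_of_padj hkl
    rcases hcon with ⟨h1, h2⟩ | ⟨h1, h2⟩
    · rw [h1, h2, hab]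
    · rw [h1, h2, hab]
  obtain ⟨D, hD, hDk, hDA⟩ := third k0 l0 A0 hk hA kA
  have hend : ∀ {k l : Fin 10} {x : E}, Joins κ s t k l x → ∃ v, κ v = l := by
    intro k l x hx
    rcases hx with hx | hx
    · exact ⟨_, hx.2⟩
    · exact ⟨_, hx.1⟩
  have hmem : ∀ k l, padj k l = true → ρ k l ∈ S ∧ ρ k l ≠ e ∧ ρ k l ≠ f ∧
      Joins κ s t k l (ρ k l) := fun k l hkl => q.mem k l hkl (hex k l hkl)
  obtain ⟨m, hm⟩ := hend je
  obtain ⟨c0, hc⟩ := hend (hmem k0 l0 hk).2.2.2
  obtain ⟨z, hz⟩ := hend (hmem l0 D hD).2.2.2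
  have d : Dat s t S e f κ ρ k0 A0 l0 D m c0 z :=
    { eS := q.eS
      fS := q.fS
      ef := q.ef
      je := je
      jf := jf
      kA := kA
      kl := hk
      Al := hA
      lD := hD
      Dk := hDk
      DA := hDA
      hm := hm
      hc := hc
      hz := hz
      mem := hmem
      only := fun x hx h1 h2 k l h3 h4 => by
        have := q.only x hx h1 h2 k l h3 h4
        exact ⟨this.1, this.2.2⟩ }
  have hodd := d.odd ho
  rcases h.ih _ _ _ d.lt (d.n1 h.n1 (fun x => h.no2 x)) (by omega) with hnz | hpq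
  · obtain ⟨φ, hφ0, hφ⟩ := hnz
    have hy0 : φ (ρ A0 l0) ≠ 0 := hφ0 _ (mem_SP.mpr (Or.inr (Or.inl rfl)))
    have hr0 : φ (ρ l0 D) ≠ 0 := hφ0 _ (mem_SP.mpr (Or.inr (Or.inr rfl)))
    have h1 := d.at_m (hφ m)
    have h2 := d.at_c (hφ c0)
    have h3 : φ e + φ f = φ (ρ A0 l0) := by
      have h4 := F_self (φ (ρ A0 l0))
      calc φ e + φ f = φ e + φ f + (φ (ρ A0 l0) + φ (ρ A0 l0)) := by rw [h4, add_zero]
        _ = (φ e + φ f + φ (ρ A0 l0)) + φ (ρ A0 l0) := by rw [add_assoc (φ e + φ f)]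
        _ = φ (ρ A0 l0) := by rw [h1, zero_add]
    refine ⟨φ, ⟨fun x hx hk' => hφ0 x (mem_SP.mpr (Or.inl ⟨hx, hk'⟩)), fun v hv => ?_⟩, ?_, ?_⟩
    · have h4 := hφ v
      unfold Cons at h4 ⊢
      rw [← d.sum_k φ hv]
      exact h4
    · rw [h3]
      exact hy0
    · rw [h3]
      intro h4
      rw [← h4, F_self, zero_add] at h2
      exact hr0 h2
  · have := pq_card hpq
    omega

end P3

open P3

theorem MinC.P3W {s t : E → V} {S : Finset E} (h : MinC s t S) {e f : E} {w a b : V}
    {κ : V → Fin 10} {ρ : Fin 10 → Fin 10 → E} (q : Sit s t S e f w a b κ ρ)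
    (hab : κ a = κ b) (l0 : Fin 10) (hw : padj (κ w) l0 = true) (ha : padj (κ a) l0 = true)
    (ho : ((odd s t S).filter (fun v => κ v = κ w)).card ≤ 4) :
    ∃ φ, Inn s t S κ (κ w) φ ∧ φ e + φ f ≠ 0 ∧ φ e + φ f ≠ φ (ρ (κ w) l0) := by
  refine gen h q hab (κ w) (κ a) l0 ?_ ?_ q.wa hw ha ho
  · rcases q.he with ⟨h1, h2⟩ | ⟨h1, h2⟩
    · exact Or.inl ⟨by rw [h1], by rw [h2]⟩
    · exact Or.inr ⟨by rw [h1], by rw [h2]⟩
  · rcases q.hf with ⟨h1, h2⟩ | ⟨h1, h2⟩
    · exact Or.inl ⟨by rw [h1], by rw [h2, hab]⟩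
    · exact Or.inr ⟨by rw [h1, hab], by rw [h2]⟩

theorem MinC.P3A {s t : E → V} {S : Finset E} (h : MinC s t S) {e f : E} {w a b : V}
    {κ : V → Fin 10} {ρ : Fin 10 → Fin 10 → E} (q : Sit s t S e f w a b κ ρ)
    (hab : κ a = κ b) (l0 : Fin 10) (hw : padj (κ w) l0 = true) (ha : padj (κ a) l0 = true)
    (ho : ((odd s t S).filter (fun v => κ v = κ a)).card ≤ 4) :
    ∃ φ, Inn s t S κ (κ a) φ ∧ φ e + φ f ≠ 0 ∧ φ e + φ f ≠ φ (ρ (κ a) l0) := by
  refine gen h q hab (κ a) (κ w) l0 ?_ ?_ q.wa.symm ha hw ho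
  · rcases q.he with ⟨h1, h2⟩ | ⟨h1, h2⟩
    · exact Or.inr ⟨by rw [h1], by rw [h2]⟩
    · exact Or.inl ⟨by rw [h1], by rw [h2]⟩
  · rcases q.hf with ⟨h1, h2⟩ | ⟨h1, h2⟩
    · exact Or.inr ⟨by rw [h1], by rw [h2, hab]⟩
    · exact Or.inl ⟨by rw [h1, hab], by rw [h2]⟩

end Pool.Agent.TH362.TF
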