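import Pool.Agent.H16.FV.L.Stm
import Pool.Agent.H16.FW.L.ECuts

/-!
Perfect matchings of cubic multigraphs without edge cuts of size one.
-/

set_option autoImplicit false

namespace Pool.Agent.TH362.TF

open Finset

variable {V E : Type} [Fintype V] [DecidableEq V] [DecidableEq E]

theorem petersen_pm {s t : E → V} {S : Finset E} (h1 : N1 s t S)
    (hl : ∀ e ∈ S, s e ≠ t e) (hc : ∀ v, deg s t S v = 0 ∨ deg s t S v = 3) :
    ∃ M ⊆ S, ∀ v, deg s t S v = 3 → ∃! e, e ∈ M ∧ (s e = v ∨ t e = v) := by
  classical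
  have hdcard : ∀ v, deg s t S v = (S.filter (fun e => s e = v ∨ t e = v)).card := by
    intro v
    unfold deg
    rw [Finset.card_filter]
    apply Finset.sum_congr rfl
    intro e he
    have := hl e he
    by_cases h2 : s e = v
    · have h3 : ¬ t e = v := fun h3 => this (h2.trans h3.symm)
      simp [h2, h3]
    · by_cases h3 : t e = v <;> simp [h2, h3]
  rcases S.eq_empty_or_nonempty with hS | hS
  · refine ⟨∅, Finset.empty_subset _, fun v hv => ?_⟩
    rw [hS] at hv
    simp [deg] at hv
  have hs3 : ∀ e ∈ S, deg s t S (s e) = 3 := by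
    intro e he
    refine (hc (s e)).resolve_left ?_
    rw [hdcard, Finset.card_eq_zero]
    intro h0
    have : e ∈ S.filter (fun e' => s e' = s e ∨ t e' = s e) :=
      Finset.mem_filter.2 ⟨he, Or.inl rfl⟩
    rw [h0] at this
    simp at this
  have ht3 : ∀ e ∈ S, deg s t S (t e) = 3 := by
    intro e he
    refine (hc (t e)).resolve_left ?_
    rw [hdcard, Finset.card_eq_zero]
    intro h0
    have : e ∈ S.filter (fun e' => s e' = t e ∨ t e' = t e) :=
      Finset.mem_filter.2 ⟨he, Or.inr rfl⟩
    rw [h0] at this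
    simp at this
  let a : {e // e ∈ S} → {v // deg s t S v = 3} := fun e => ⟨s e.1, hs3 e.1 e.2⟩
  let b : {e // e ∈ S} → {v // deg s t S v = 3} := fun e => ⟨t e.1, ht3 e.1 e.2⟩
  have hcc : ∀ w, Helper879.ECD.cn a b univ {w} = 3 := by
    intro w
    unfold Helper879.ECD.cn
    refine Eq.trans ?_ ((hdcard w.1).symm.trans w.2)
    refine Finset.card_bij (fun e _ => e.1) ?_ ?_ ?_
    · intro e he
      simp only [Finset.mem_filter, Finset.mem_univ, true_and, Finset.mem_singleton] at he
      refine Finset.mem_filter.2 ⟨e.2, ?_⟩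
      by_contra h
      push Not at h
      apply he
      constructor
      · intro h2; exact absurd (congrArg Subtype.val h2) h.1
      · intro h2; exact absurd (congrArg Subtype.val h2) h.2
    · intro e _ e' _ h
      exact Subtype.ext h
    · intro e he
      obtain ⟨he1, he2⟩ := Finset.mem_filter.1 he
      refine ⟨⟨e, he1⟩, ?_, rfl⟩
      simp only [Finset.mem_filter, Finset.mem_univ, true_and, Finset.mem_singleton]
      intro h
      have hne := hl e he1
      rcases he2 with h2 | h2
      · have h3 : a ⟨e, he1⟩ = w := Subtype.ext h2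
        have h4 := congrArg Subtype.val (h.1 h3)
        exact hne (h2.trans h4.symm)
      · have h3 : b ⟨e, he1⟩ = w := Subtype.ext h2
        have h4 := congrArg Subtype.val (h.2 h3)
        exact hne (h4.trans h2.symm)
  have hbb : ∀ X : Finset {v // deg s t S v = 3}, Helper879.ECD.cn a b univ X ≠ 1 := by
    intro X hX
    apply h1 (fun v => decide (∃ h : deg s t S v = 3, (⟨v, h⟩ : {v // deg s t S v = 3}) ∈ X))
    rw [← hX]
    unfold Helper879.ECD.cn cut
    symm
    refine Finset.card_bij (fun e _ => e.1) ?_ ?_ ?_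
    · intro e he
      simp only [Finset.mem_filter, Finset.mem_univ, true_and] at he
      refine Finset.mem_filter.2 ⟨e.2, ?_⟩
      intro h
      apply he
      rw [decide_eq_decide] at h
      constructor
      · intro h2
        obtain ⟨_, h3⟩ := h.1 ⟨hs3 e.1 e.2, h2⟩
        exact h3
      · intro h2
        obtain ⟨_, h3⟩ := h.2 ⟨ht3 e.1 e.2, h2⟩
        exact h3
    · intro e _ e' _ h
      exact Subtype.ext h
    · intro e he
      obtain ⟨he1, he2⟩ := Finset.mem_filter.1 he
      refine ⟨⟨e, he1⟩, ?_, rfl⟩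
      simp only [Finset.mem_filter, Finset.mem_univ, true_and]
      intro h
      apply he2
      rw [decide_eq_decide]
      constructor
      · rintro ⟨_, h3⟩
        exact ⟨ht3 e he1, h.1 h3⟩
      · rintro ⟨_, h3⟩
        exact ⟨hs3 e he1, h.2 h3⟩
  obtain ⟨e0, he0⟩ := hS
  obtain ⟨M, -, hM⟩ := Helper879.ECD.exists_pm a b hcc hbb ⟨e0, he0⟩
    (fun h => hl e0 he0 (congrArg Subtype.val h))
  refine ⟨M.map ⟨Subtype.val, Subtype.val_injective⟩, ?_, ?_⟩
  · intro e he
    obtain ⟨e', _, rfl⟩ := Finset.mem_map.1 he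
    exact e'.2
  · intro v hv
    have h3 := hM ⟨v, hv⟩
    unfold Helper879.ECD.cn at h3
    obtain ⟨e, he⟩ := Finset.card_eq_one.1 h3
    have hmem : ∀ e' : {e // e ∈ S}, e' ∈ M → (s e'.1 = v ∨ t e'.1 = v) → e' = e := by
      intro e' he' h
      have : e' ∈ M.filter (fun e => ¬ (a e ∈ ({⟨v, hv⟩} : Finset {v // deg s t S v = 3}) ↔
          b e ∈ ({⟨v, hv⟩} : Finset {v // deg s t S v = 3}))) := by
        refine Finset.mem_filter.2 ⟨he', ?_⟩
        simp only [Finset.mem_singleton]
        intro h4
        have hne := hl e'.1 e'.2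
        rcases h with h2 | h2
        · have h3 : a e' = ⟨v, hv⟩ := Subtype.ext h2
          exact hne (h2.trans (congrArg Subtype.val (h4.1 h3)).symm)
        · have h3 : b e' = ⟨v, hv⟩ := Subtype.ext h2
          exact hne ((congrArg Subtype.val (h4.2 h3)).trans h2.symm)
      rw [he] at this
      exact Finset.mem_singleton.1 this
    have heM : e ∈ M.filter (fun e => ¬ (a e ∈ ({⟨v, hv⟩} : Finset {v // deg s t S v = 3}) ↔
          b e ∈ ({⟨v, hv⟩} : Finset {v // deg s t S v = 3}))) := by
      rw [he]; exact Finset.mem_singleton_self _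
    obtain ⟨heM1, heM2⟩ := Finset.mem_filter.1 heM
    refine ⟨e.1, ⟨Finset.mem_map.2 ⟨e, heM1, rfl⟩, ?_⟩, ?_⟩
    · by_contra h
      push Not at h
      apply heM2
      simp only [Finset.mem_singleton]
      constructor
      · intro h2; exact absurd (congrArg Subtype.val h2) h.1
      · intro h2; exact absurd (congrArg Subtype.val h2) h.2
    · rintro e' ⟨he1, he2⟩
      obtain ⟨e'', he'', rfl⟩ := Finset.mem_map.1 he1
      exact congrArg Subtype.val (hmem e'' he'' he2)

end Pool.Agent.TH362.TF
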