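import Mathlib

set_option autoImplicit false

namespace Pool.Agent.Helper879.ECD

open SimpleGraph

section Barrier

variable {W : Type} (H : SimpleGraph W)

/-- `H` with all edges at `U` removed. -/
def off (U : Set W) : SimpleGraph W where
  Adj x y := H.Adj x y ∧ x ∉ U ∧ y ∉ U
  symm := ⟨fun _ _ h => ⟨h.1.symm, h.2.2, h.2.1⟩⟩
  loopless := ⟨fun _ h => h.1.ne rfl⟩

/-- `Z` is the vertex set of an odd component of `H - U`. -/
def OddComp (U Z : Set W) : Prop :=
  (∃ x, x ∉ U ∧ Z = {y | (off H U).Reachable x y}) ∧ Odd Z.ncard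

variable {H}

lemma off_adj {U : Set W} {x y : W} : (off H U).Adj x y ↔ H.Adj x y ∧ x ∉ U ∧ y ∉ U := Iff.rfl

lemma off_reach_notMem {U : Set W} {x y : W} (hx : x ∉ U) (h : (off H U).Reachable x y) :
    y ∉ U := by
  obtain ⟨p⟩ := h
  induction p with
  | nil => exact hx
  | cons h _ ih => exact ih h.2.2

lemma coe_reach_iff {U : Set W} (a b : ((⊤ : H.Subgraph).deleteVerts U).verts) :
    ((⊤ : H.Subgraph).deleteVerts U).coe.Reachable a b ↔ (off H U).Reachable a.1 b.1 := by
  constructor
  · rintro ⟨p⟩
    induction p with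
    | nil => exact Reachable.refl _
    | @cons u v w h p ih =>
      refine Reachable.trans (Adj.reachable ?_) ih
      have := h
      simp only [Subgraph.coe_adj, Subgraph.deleteVerts_adj] at this
      refine ⟨this.2.2.2.2, ?_, ?_⟩
      · exact this.2.1
      · exact this.2.2.2.1
  · rintro ⟨p⟩
    have key : ∀ x y : W, (off H U).Walk x y → ∀ (hx : x ∈ ((⊤ : H.Subgraph).deleteVerts U).verts)
        (hy : y ∈ ((⊤ : H.Subgraph).deleteVerts U).verts),
        ((⊤ : H.Subgraph).deleteVerts U).coe.Reachable ⟨x, hx⟩ ⟨y, hy⟩ := by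
      intro x y p
      induction p with
      | nil => intro hx hy; exact Reachable.refl _
      | @cons u v w h p ih =>
        intro hx hy
        have hv : v ∈ ((⊤ : H.Subgraph).deleteVerts U).verts := by
          simp only [Subgraph.deleteVerts_verts, Subgraph.verts_top]
          exact ⟨trivial, h.2.2⟩
        refine Reachable.trans (Adj.reachable ?_) (ih hv hy)
        simp only [Subgraph.coe_adj, Subgraph.deleteVerts_adj]
        exact ⟨trivial, h.2.1, trivial, h.2.2, h.1⟩
    exact key _ _ p a.2 b.2

lemma ncard_oddComp [Finite W] (U : Set W) :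
    ((⊤ : H.Subgraph).deleteVerts U).coe.oddComponents.ncard = {Z | OddComp H U Z}.ncard := by
  set K := ((⊤ : H.Subgraph).deleteVerts U) with hK
  let f : K.coe.ConnectedComponent → Set W := fun c => Subtype.val '' c.supp
  have hf : Function.Injective f := by
    intro c d hcd
    have : c.supp = d.supp := Set.image_injective.mpr Subtype.val_injective hcd
    exact ConnectedComponent.supp_injective this
  rw [← Set.ncard_image_of_injective _ hf]
  congr 1
  ext Z
  constructor
  · rintro ⟨c, hc, rfl⟩
    induction c using ConnectedComponent.ind with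
    | h v =>
      refine ⟨⟨v.1, ?_, ?_⟩, ?_⟩
      · have := v.2
        simp only [hK, Subgraph.deleteVerts_verts, Subgraph.verts_top] at this
        exact this.2
      · ext y
        simp only [f, Set.mem_image, ConnectedComponent.mem_supp_iff, Set.mem_setOf_eq]
        constructor
        · rintro ⟨z, hz, rfl⟩
          rw [ConnectedComponent.eq] at hz
          exact ((coe_reach_iff _ _).1 hz).symm
        · intro hy
          have hyU : y ∉ U := by
            refine off_reach_notMem ?_ hy
            have := v.2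
            simp only [hK, Subgraph.deleteVerts_verts, Subgraph.verts_top] at this
            exact this.2
          have hy' : y ∈ K.verts := by
            simp only [hK, Subgraph.deleteVerts_verts, Subgraph.verts_top]
            exact ⟨trivial, hyU⟩
          refine ⟨⟨y, hy'⟩, ?_, rfl⟩
          rw [ConnectedComponent.eq]
          exact (coe_reach_iff _ _).2 hy.symm
      · rw [Set.ncard_image_of_injective _ Subtype.val_injective]
        exact hc
  · rintro ⟨⟨x, hx, rfl⟩, hodd⟩
    have hx' : x ∈ K.verts := by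
      simp only [hK, Subgraph.deleteVerts_verts, Subgraph.verts_top]
      exact ⟨trivial, hx⟩
    have heq : f (K.coe.connectedComponentMk ⟨x, hx'⟩) = {y | (off H U).Reachable x y} := by
      ext y
      simp only [f, Set.mem_image, ConnectedComponent.mem_supp_iff, Set.mem_setOf_eq]
      constructor
      · rintro ⟨z, hz, rfl⟩
        rw [ConnectedComponent.eq] at hz
        exact ((coe_reach_iff _ _).1 hz).symm
      · intro hy
        have hyU : y ∉ U := off_reach_notMem hx hy
        have hy' : y ∈ K.verts := by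
          simp only [hK, Subgraph.deleteVerts_verts, Subgraph.verts_top]
          exact ⟨trivial, hyU⟩
        refine ⟨⟨y, hy'⟩, ?_, rfl⟩
        rw [ConnectedComponent.eq]
        exact (coe_reach_iff _ _).2 hy.symm
    refine ⟨K.coe.connectedComponentMk ⟨x, hx'⟩, ?_, heq⟩
    have : (f (K.coe.connectedComponentMk ⟨x, hx'⟩)).ncard =
        (K.coe.connectedComponentMk ⟨x, hx'⟩).supp.ncard :=
      Set.ncard_image_of_injective _ Subtype.val_injective
    rw [heq] at this
    rw [this] at hodd
    exact hodd

/-- parity of the number of odd components -/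
lemma parity_oddComp [Finite W] (U : Set W) (hev : Even (Nat.card W)) :
    ({Z | OddComp H U Z}.ncard + U.ncard) % 2 = 0 := by
  rw [← ncard_oddComp]
  have h1 := odd_ncard_oddComponents ((⊤ : H.Subgraph).deleteVerts U).coe
  have h2 : Nat.card ((⊤ : H.Subgraph).deleteVerts U).verts + U.ncard = Nat.card W := by
    have : ((⊤ : H.Subgraph).deleteVerts U).verts = Uᶜ := by
      ext x; simp
    rw [this]
    have := Set.ncard_add_ncard_compl U
    rw [Nat.card_coe_set_eq]
    omega
  rcases Nat.even_or_odd' (Nat.card W) with ⟨m, hm | hm⟩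
  · rcases Nat.even_or_odd (((⊤ : H.Subgraph).deleteVerts U).coe.oddComponents.ncard) with h | h
    · have h3 : ¬ Odd (Nat.card ((⊤ : H.Subgraph).deleteVerts U).verts) := by
        rw [← h1]; exact Nat.not_odd_iff_even.mpr h
      rw [Nat.not_odd_iff_even, Nat.even_iff] at h3
      rw [Nat.even_iff] at h
      omega
    · have h3 := h1.1 h
      rw [Nat.odd_iff] at h3 h
      omega
  · rw [Nat.even_iff] at hev; omega

/-- A minimal Tutte barrier. -/
lemma exists_min_barrier [Finite W] (hev : Even (Nat.card W))
    (hno : ¬ ∃ M : Subgraph H, M.IsPerfectMatching) :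
    ∃ U : Set W, U.ncard + 2 ≤ {Z | OddComp H U Z}.ncard ∧
      ∀ U' : Set W, U' ⊂ U → {Z | OddComp H U' Z}.ncard ≤ U'.ncard := by
  classical
  rw [tutte] at hno
  push Not at hno
  have hex : ∃ n, ∃ U : Set W, U.ncard = n ∧ H.IsTutteViolator U := by
    obtain ⟨U, hU⟩ := hno
    exact ⟨_, U, rfl, hU⟩
  obtain ⟨U, hUn, hU⟩ := Nat.find_spec hex
  refine ⟨U, ?_, ?_⟩
  · have h1 := parity_oddComp (H := H) U hev
    unfold IsTutteViolator at hU
    rw [ncard_oddComp] at hU
    omega
  · intro U' hU'
    by_contra hcon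
    push Not at hcon
    have hlt : U'.ncard < U.ncard := Set.ncard_lt_ncard hU' (Set.toFinite _)
    rw [hUn] at hlt
    refine Nat.find_min hex hlt ⟨U', rfl, ?_⟩
    unfold IsTutteViolator
    rw [ncard_oddComp]
    exact hcon

/-- Two odd components sharing a vertex are equal. -/
lemma OddComp.eq_of_mem {U Z Z' : Set W} (hZ : OddComp H U Z) (hZ' : OddComp H U Z')
    {z : W} (h : z ∈ Z) (h' : z ∈ Z') : Z = Z' := by
  obtain ⟨⟨x, _, rfl⟩, _⟩ := hZ
  obtain ⟨⟨x', _, rfl⟩, _⟩ := hZ'
  ext y
  simp only [Set.mem_setOf_eq] at *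
  exact ⟨fun hy => h'.trans (h.symm.trans hy), fun hy => h.trans (h'.symm.trans hy)⟩

lemma OddComp.closed {U Z : Set W} (hZ : OddComp H U Z) {z y : W} (h : z ∈ Z)
    (hy : y ∉ U) (hadj : H.Adj z y) : y ∈ Z := by
  obtain ⟨⟨x, hx, rfl⟩, _⟩ := hZ
  exact Reachable.trans h (Adj.reachable ⟨hadj, off_reach_notMem hx h, hy⟩)

lemma OddComp.notMem {U Z : Set W} (hZ : OddComp H U Z) {z : W} (h : z ∈ Z) : z ∉ U := by
  obtain ⟨⟨x, hx, rfl⟩, _⟩ := hZ
  exact off_reach_notMem hx h


end Barrier

end Pool.Agent.Helper879.ECD
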