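import Pool.Agent.H16.FW.L.FinCE

set_option autoImplicit false

namespace Pool.Agent.TH362.TF.FinC

/-- the vertices, marked at the beginnings of the cycles -/
def cl511 : List (ℕ × Bool) :=
  [(0, true), (1, false), (2, false), (3, false), (4, false), (5, true), (6, false), (7, false), (8, false), (9, false), (10, false), (11, false), (12, false), (13, false), (14, false), (15, false)]

/-- the permutation -/
def pl511 : List (ℕ × ℕ) :=
  [(0, 1), (1, 2), (2, 3), (3, 4), (4, 0), (5, 6), (6, 7), (7, 8), (8, 9), (9, 10), (10, 11), (11, 12), (12, 13), (13, 14), (14, 15), (15, 5)]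

/-- the permutation as a number -/
def P511 : ℕ := 6912404932064723745

/-- the possible pairs -/
def en511 : List ((ℕ × ℕ × ℕ) × List (ℕ × ℕ)) :=
  [((0, 1, 4), [(5, 6), (6, 7), (7, 8), (8, 9), (9, 10), (10, 11), (11, 12), (12, 13), (13, 14), (14, 15), (15, 5)]),
   ((1, 2, 0), [(5, 6), (6, 7), (7, 8), (8, 9), (9, 10), (10, 11), (11, 12), (12, 13), (13, 14), (14, 15), (15, 5)]),
   ((2, 3, 1), [(5, 6), (6, 7), (7, 8), (8, 9), (9, 10), (10, 11), (11, 12), (12, 13), (13, 14), (14, 15), (15, 5)]),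
   ((3, 4, 2), [(5, 6), (6, 7), (7, 8), (8, 9), (9, 10), (10, 11), (11, 12), (12, 13), (13, 14), (14, 15), (15, 5)]),
   ((4, 0, 3), [(5, 6), (6, 7), (7, 8), (8, 9), (9, 10), (10, 11), (11, 12), (12, 13), (13, 14), (14, 15), (15, 5)]),
   ((5, 6, 15), [(9, 10), (10, 11), (11, 12), (12, 13)]),
   ((6, 7, 5), [(10, 11), (11, 12), (12, 13), (13, 14)]),
   ((7, 8, 6), [(11, 12), (12, 13), (13, 14), (14, 15)]),
   ((8, 9, 7), [(12, 13), (13, 14), (14, 15), (15, 5)]),
   ((9, 10, 8), [(13, 14), (14, 15), (15, 5)]),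
   ((10, 11, 9), [(14, 15), (15, 5)]),
   ((11, 12, 10), [(15, 5)]),
   ((12, 13, 11), []),
   ((13, 14, 12), []),
   ((14, 15, 13), []),
   ((15, 5, 14), [])]


/-- the vertices, marked at the beginnings of the cycles -/
def cl79 : List (ℕ × Bool) :=
  [(0, true), (1, false), (2, false), (3, false), (4, false), (5, false), (6, false), (7, true), (8, false), (9, false), (10, false), (11, false), (12, false), (13, false), (14, false), (15, false)]

/-- the permutation -/
def pl79 : List (ℕ × ℕ) :=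
  [(0, 1), (1, 2), (2, 3), (3, 4), (4, 5), (5, 6), (6, 0), (7, 8), (8, 9), (9, 10), (10, 11), (11, 12), (12, 13), (13, 14), (14, 15), (15, 7)]

/-- the permutation as a number -/
def P79 : ℕ := 9218247941161304865

/-- the possible pairs -/
def en79 : List ((ℕ × ℕ × ℕ) × List (ℕ × ℕ)) :=
  [((0, 1, 6), [(7, 8), (8, 9), (9, 10), (10, 11), (11, 12), (12, 13), (13, 14), (14, 15), (15, 7)]),
   ((1, 2, 0), [(7, 8), (8, 9), (9, 10), (10, 11), (11, 12), (12, 13), (13, 14), (14, 15), (15, 7)]),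
   ((2, 3, 1), [(7, 8), (8, 9), (9, 10), (10, 11), (11, 12), (12, 13), (13, 14), (14, 15), (15, 7)]),
   ((3, 4, 2), [(7, 8), (8, 9), (9, 10), (10, 11), (11, 12), (12, 13), (13, 14), (14, 15), (15, 7)]),
   ((4, 5, 3), [(7, 8), (8, 9), (9, 10), (10, 11), (11, 12), (12, 13), (13, 14), (14, 15), (15, 7)]),
   ((5, 6, 4), [(7, 8), (8, 9), (9, 10), (10, 11), (11, 12), (12, 13), (13, 14), (14, 15), (15, 7)]),
   ((6, 0, 5), [(7, 8), (8, 9), (9, 10), (10, 11), (11, 12), (12, 13), (13, 14), (14, 15), (15, 7)]),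
   ((7, 8, 15), [(11, 12), (12, 13)]),
   ((8, 9, 7), [(12, 13), (13, 14)]),
   ((9, 10, 8), [(13, 14), (14, 15)]),
   ((10, 11, 9), [(14, 15), (15, 7)]),
   ((11, 12, 10), [(15, 7)]),
   ((12, 13, 11), []),
   ((13, 14, 12), []),
   ((14, 15, 13), []),
   ((15, 7, 14), [])]


/-- the vertices, marked at the beginnings of the cycles -/
def cl556 : List (ℕ × Bool) :=
  [(0, true), (1, false), (2, false), (3, false), (4, false), (5, true), (6, false), (7, false), (8, false), (9, false), (10, true), (11, false), (12, false), (13, false), (14, false), (15, false)]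

/-- the permutation -/
def pl556 : List (ℕ × ℕ) :=
  [(0, 1), (1, 2), (2, 3), (3, 4), (4, 0), (5, 6), (6, 7), (7, 8), (8, 9), (9, 5), (10, 11), (11, 12), (12, 13), (13, 14), (14, 15), (15, 10)]

/-- the permutation as a number -/
def P556 : ℕ := 12677012111501574945

/-- the possible pairs -/
def en556 : List ((ℕ × ℕ × ℕ) × List (ℕ × ℕ)) :=
  [((0, 1, 4), [(5, 6), (6, 7), (7, 8), (8, 9), (9, 5), (10, 11), (11, 12), (12, 13), (13, 14), (14, 15), (15, 10)]),
   ((1, 2, 0), [(5, 6), (6, 7), (7, 8), (8, 9), (9, 5), (10, 11), (11, 12), (12, 13), (13, 14), (14, 15), (15, 10)]),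
   ((2, 3, 1), [(5, 6), (6, 7), (7, 8), (8, 9), (9, 5), (10, 11), (11, 12), (12, 13), (13, 14), (14, 15), (15, 10)]),
   ((3, 4, 2), [(5, 6), (6, 7), (7, 8), (8, 9), (9, 5), (10, 11), (11, 12), (12, 13), (13, 14), (14, 15), (15, 10)]),
   ((4, 0, 3), [(5, 6), (6, 7), (7, 8), (8, 9), (9, 5), (10, 11), (11, 12), (12, 13), (13, 14), (14, 15), (15, 10)]),
   ((5, 6, 9), [(10, 11), (11, 12), (12, 13), (13, 14), (14, 15), (15, 10)]),
   ((6, 7, 5), [(10, 11), (11, 12), (12, 13), (13, 14), (14, 15), (15, 10)]),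
   ((7, 8, 6), [(10, 11), (11, 12), (12, 13), (13, 14), (14, 15), (15, 10)]),
   ((8, 9, 7), [(10, 11), (11, 12), (12, 13), (13, 14), (14, 15), (15, 10)]),
   ((9, 5, 8), [(10, 11), (11, 12), (12, 13), (13, 14), (14, 15), (15, 10)]),
   ((10, 11, 15), []),
   ((11, 12, 10), []),
   ((12, 13, 11), []),
   ((13, 14, 12), []),
   ((14, 15, 13), []),
   ((15, 10, 14), [])]


end Pool.Agent.TH362.TF.FinC
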