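import Pool.Agent.H16.FV.L.Stm

set_option autoImplicit false

namespace Pool.Agent.TH362.TF

/-- The next element in the standard permutation with cycles of lengths `l`. -/
def nxt : List ℕ → ℕ → ℕ
  | [], v => v
  | a :: l, v => if v < a then (v + 1) % a else a + nxt l (v - a)

/-- The standard permutation. -/
def Std (l : List ℕ) (n : ℕ) (p : Equiv.Perm (Fin n)) : Prop := ∀ v : Fin n, (p v).val = nxt l v.val

end Pool.Agent.TH362.TF
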