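import Pool.Agent.H16.FW.L.TabData
import Pool.Agent.H16.FV.L.Basic

/-! Flows of the Petersen graph with one or two additional edges. -/

set_option autoImplicit false

namespace Pool.Agent.TH362.TF

namespace Tab

/-- The number of the edge joining `k` and `l`, 15 if there is none. -/
def ei (k l : ℕ) : ℕ := (eTab.getD k []).getD l 15

/-- Two binary digits of `c`. -/
def val (c i : ℕ) : ℕ := (c >>> (2 * i)) % 4

/-- The value of the flow `c` at the edge `k l`. -/
def pv (c k l : ℕ) : ℕ := val c (ei k l)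

/-- The sum of the values at `k`. -/
def sm (c : ℕ) (k : Fin 10) : ℕ :=
  (pv c k (nb k 0) ^^^ pv c k (nb k 1)) ^^^ pv c k (nb k 2)

/-- Patterns of numbers. -/
def patn (p y a0 a1 a2 : ℕ) : Bool :=
  match p with
  | 0 => a0 == y && (a1 == a2 && !(a1 == y))
  | 1 => a1 == y && (a0 == a2 && !(a0 == y))
  | 2 => a2 == y && (a0 == a1 && !(a0 == y))
  | _ => a0 == y && (a1 == y && a2 == y)

/-- The pattern at `W`. -/
def patw (c : ℕ) (p : Fin 4) (y : ℕ) (W : Fin 10) : Bool :=
  patn p y (pv c W (nb W 0)) (pv c W (nb W 1)) (pv c W (nb W 2))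

/-- The entry of the first table. -/
def ent2 (W A : Fin 10) (pW pA : Fin 4) : ℕ :=
  ((tab2.getD W []).getD A []).getD (4 * pW + pA) 0

/-- Check of the first table. -/
def chk2 (W A : Fin 10) (pW pA : Fin 4) (c : ℕ) : Bool :=
  !(val c 16 == 0) &&
  ((List.finRange 10).all (fun k => (k == W || k == A) || sm c k == 0)) &&
  ((List.range 15).all (fun i => !(val c i == 0))) &&
  patw c pW (val c 16) W && patw c pA (val c 16) A

/-- The cases needed. -/
def need2 (W A : Fin 10) (pW pA : Fin 4) : Bool :=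
  (List.finRange 3).any (fun j => (List.finRange 3).any (fun i =>
    (nb W j == A && nb A i == W && (pW == 3 || pW.val == j.val) && (pA == 3 || pA.val == i.val)) ||
    (!(W == A) && !(padj W A) && nb W j == nb A i &&
      (((pW == 3 || pW.val == j.val) && !(pA == 3) && !(pA.val == i.val)) ||
       ((pA == 3 || pA.val == i.val) && !(pW == 3) && !(pW.val == j.val))))))

theorem all2 : (List.finRange 10).all (fun W => (List.finRange 10).all (fun A =>
    (List.finRange 4).all (fun pW => (List.finRange 4).all (fun pA =>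
      !(need2 W A pW pA) || chk2 W A pW pA (ent2 W A pW pA))))) = true := by decide +kernel

/-- The entry of the second table. -/
def ent3 (W A : Fin 10) (n : Fin 3) (p : Fin 4) : ℕ :=
  (((tab3.getD W []).getD A []).getD n []).getD p 0

/-- Check of the second table. -/
def chk3 (W A B : Fin 10) (p : Fin 4) (c : ℕ) : Bool :=
  !(val c 16 == 0) && !(val c 17 == 0) && !(val c 16 == val c 17) &&
  ((List.finRange 10).all (fun k => (k == W || (k == A || k == B)) || sm c k == 0)) &&
  ((List.range 15).all (fun i => i == ei A B || !(val c i == 0))) &&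
  pv c A B == 0 && (val c 16 ^^^ sm c A) == 0 && (val c 17 ^^^ sm c B) == 0 &&
  patw c p (val c 16 ^^^ val c 17) W

/-- The cases needed. -/
def need3 (W A B : Fin 10) (p : Fin 4) : Bool :=
  !(W == A) && !(W == B) && ((!(padj W A) && !(padj W B)) ||
    (List.finRange 3).any (fun j => (nb W j == A || nb W j == B) && (p == 3 || p.val == j.val)))

theorem all3 : (List.finRange 10).all (fun W => (List.finRange 10).all (fun A =>
    (List.finRange 3).all (fun n => (List.finRange 4).all (fun p =>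
      !(need3 W A (nb A n) p) || chk3 W A (nb A n) p (ent3 W A n p))))) = true := by
  decide +kernel

/-- Numbers as elements of the group. -/
def toF (n : ℕ) : F := ((n : ZMod 2), ((n / 2 : ℕ) : ZMod 2))

/-- The function on pairs. -/
def psi (c : ℕ) (k l : Fin 10) : F := toF (pv c k l)

theorem toF_xor' : ∀ a b : Fin 4, toF (a.val ^^^ b.val) = toF a.val + toF b.val := by decide

theorem toF_xor {a b : ℕ} (ha : a < 4) (hb : b < 4) : toF (a ^^^ b) = toF a + toF b :=
  toF_xor' ⟨a, ha⟩ ⟨b, hb⟩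

theorem toF_ne' : ∀ a b : Fin 4, toF a.val = toF b.val → a = b := by decide

theorem toF_inj {a b : ℕ} (ha : a < 4) (hb : b < 4) (h : toF a = toF b) : a = b := by
  have := toF_ne' ⟨a, ha⟩ ⟨b, hb⟩ h
  exact congrArg Fin.val this

theorem toF_zero : toF 0 = 0 := by decide

theorem toF_ne0 {a : ℕ} (ha : a < 4) (h : (a == 0) = false) : toF a ≠ 0 := by
  intro h'
  have := toF_inj ha (by norm_num) (h'.trans toF_zero.symm)
  simp [this] at h

theorem xor_lt {a b : ℕ} (ha : a < 4) (hb : b < 4) : a ^^^ b < 4 :=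
  Nat.xor_lt_two_pow (n := 2) ha hb

theorem val_lt (c i : ℕ) : val c i < 4 := Nat.mod_lt _ (by norm_num)

theorem pv_lt (c k l : ℕ) : pv c k l < 4 := val_lt _ _

theorem sm_toF (c : ℕ) (k : Fin 10) :
    toF (sm c k) = psi c k (nb k 0) + psi c k (nb k 1) + psi c k (nb k 2) := by
  unfold sm psi
  rw [toF_xor (xor_lt (pv_lt _ _ _) (pv_lt _ _ _)) (pv_lt _ _ _),
    toF_xor (pv_lt _ _ _) (pv_lt _ _ _)]

theorem ei_symm : ∀ k l : Fin 10, ei k l = ei l k := by decide

theorem ei_lt : ∀ k l : Fin 10, padj k l = true → ei k l < 15 := by decide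

theorem ei_inj : ∀ k l a b : Fin 10, padj k l = true → ei k l = ei a b →
    (k = a ∧ l = b ∨ k = b ∧ l = a) := by decide +kernel

theorem psi_symm (c : ℕ) (k l : Fin 10) : psi c k l = psi c l k := by
  unfold psi pv; rw [ei_symm]

theorem pat_of {c : ℕ} {p : Fin 4} {y : ℕ} {W : Fin 10} (hy : y < 4)
    (h : patw c p y W = true) :
    Pat p (toF y) (psi c W (nb W 0)) (psi c W (nb W 1)) (psi c W (nb W 2)) := by
  have key : ∀ a b : ℕ, a < 4 → b < 4 → (a == b) = false → toF a ≠ toF b := by
    intro a b ha hb h h'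
    have := toF_inj ha hb h'
    simp [this] at h
  match p, h with
  | 0, h =>
    have h' : (pv c W (nb W 0) == y && (pv c W (nb W 1) == pv c W (nb W 2) &&
      !(pv c W (nb W 1) == y))) = true := h
    rw [Bool.and_eq_true, Bool.and_eq_true, Bool.not_eq_true'] at h'
    obtain ⟨h1, h2, h3⟩ := h'
    exact ⟨congrArg toF (by simpa using h1), congrArg toF (by simpa using h2),
      key _ _ (pv_lt _ _ _) hy h3⟩
  | 1, h =>
    have h' : (pv c W (nb W 1) == y && (pv c W (nb W 0) == pv c W (nb W 2) &&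
      !(pv c W (nb W 0) == y))) = true := h
    rw [Bool.and_eq_true, Bool.and_eq_true, Bool.not_eq_true'] at h'
    obtain ⟨h1, h2, h3⟩ := h'
    exact ⟨congrArg toF (by simpa using h1), congrArg toF (by simpa using h2),
      key _ _ (pv_lt _ _ _) hy h3⟩
  | 2, h =>
    have h' : (pv c W (nb W 2) == y && (pv c W (nb W 0) == pv c W (nb W 1) &&
      !(pv c W (nb W 0) == y))) = true := h
    rw [Bool.and_eq_true, Bool.and_eq_true, Bool.not_eq_true'] at h'
    obtain ⟨h1, h2, h3⟩ := h'
    exact ⟨congrArg toF (by simpa using h1), congrArg toF (by simpa using h2),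
      key _ _ (pv_lt _ _ _) hy h3⟩
  | 3, h =>
    have h' : (pv c W (nb W 0) == y && (pv c W (nb W 1) == y && pv c W (nb W 2) == y)) =
      true := h
    rw [Bool.and_eq_true, Bool.and_eq_true] at h'
    obtain ⟨h1, h2, h3⟩ := h'
    exact ⟨congrArg toF (by simpa using h1), congrArg toF (by simpa using h2),
      congrArg toF (by simpa using h3)⟩

theorem sm_lt (c : ℕ) (k : Fin 10) : sm c k < 4 :=
  xor_lt (xor_lt (pv_lt _ _ _) (pv_lt _ _ _)) (pv_lt _ _ _)

theorem out2_of {W A : Fin 10} {pW pA : Fin 4} {c : ℕ} (h : chk2 W A pW pA c = true) :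
    Out2 W A pW pA (toF (val c 16)) (psi c) := by
  simp only [chk2, Bool.and_eq_true, List.all_eq_true, Bool.not_eq_true'] at h
  obtain ⟨⟨⟨⟨h1, h2⟩, h3⟩, h4⟩, h5⟩ := h
  refine ⟨toF_ne0 (val_lt _ _) h1, psi_symm c, fun k l hkl => ?_, fun k hk hk' => ?_,
    pat_of (val_lt _ _) h4, pat_of (val_lt _ _) h5⟩
  · exact toF_ne0 (val_lt _ _) (h3 _ (List.mem_range.2 (ei_lt k l hkl)))
  · have := h2 k (List.mem_finRange k)
    simp only [Bool.or_eq_true, beq_iff_eq] at this
    rcases this with (h | h) | h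
    · exact absurd h hk
    · exact absurd h hk'
    · rw [← sm_toF, h, toF_zero]

theorem out3_of {W A B : Fin 10} {p : Fin 4} {c : ℕ} (h : chk3 W A B p c = true) :
    Out3 W A B p (toF (val c 16)) (toF (val c 17)) (psi c) := by
  simp only [chk3, Bool.and_eq_true, List.all_eq_true, Bool.not_eq_true'] at h
  obtain ⟨⟨⟨⟨⟨⟨⟨⟨h1, h2⟩, h3⟩, h4⟩, h5⟩, h6⟩, h7⟩, h8⟩, h9⟩ := h
  refine ⟨toF_ne0 (val_lt _ _) h1, toF_ne0 (val_lt _ _) h2, fun h => ?_, psi_symm c,
    fun k l hkl hne => ?_, fun k hk hk' hk2 => ?_, ?_, ?_, ?_, ?_⟩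
  · have := toF_inj (val_lt _ _) (val_lt _ _) h
    simp [this] at h3
  · have := h5 _ (List.mem_range.2 (ei_lt k l hkl))
    simp only [Bool.or_eq_true, beq_iff_eq, Bool.not_eq_true'] at this
    rcases this with h | h
    · exact absurd (ei_inj k l A B hkl h) hne
    · exact toF_ne0 (val_lt _ _) h
  · have := h4 k (List.mem_finRange k)
    simp only [Bool.or_eq_true, beq_iff_eq] at this
    rcases this with (h | h | h) | h
    · exact absurd h hk
    · exact absurd h hk'
    · exact absurd h hk2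
    · rw [← sm_toF, h, toF_zero]
  · have h6' : pv c A B = 0 := by simpa using h6
    unfold psi; rw [h6', toF_zero]
  · have : val c 16 ^^^ sm c A = 0 := by simpa using h7
    rw [← sm_toF, ← toF_xor (val_lt _ _) (sm_lt _ _), this, toF_zero]
  · have : val c 17 ^^^ sm c B = 0 := by simpa using h8
    rw [← sm_toF, ← toF_xor (val_lt _ _) (sm_lt _ _), this, toF_zero]
  · rw [← toF_xor (val_lt _ _) (val_lt _ _)]
    exact pat_of (xor_lt (val_lt _ _) (val_lt _ _)) h9

theorem tab2_of {W A : Fin 10} {pW pA : Fin 4} (h : need2 W A pW pA = true) :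
    ∃ y Ψ, Out2 W A pW pA y Ψ := by
  have := all2
  simp only [List.all_eq_true] at this
  have := this W (List.mem_finRange _) A (List.mem_finRange _) pW (List.mem_finRange _) pA
    (List.mem_finRange _)
  rw [h] at this
  exact ⟨_, _, out2_of (by simpa using this)⟩

theorem tab3_of {W A : Fin 10} {n : Fin 3} {p : Fin 4} (h : need3 W A (nb A n) p = true) :
    ∃ ve vf Ψ, Out3 W A (nb A n) p ve vf Ψ := by
  have := all3
  simp only [List.all_eq_true] at this
  have := this W (List.mem_finRange _) A (List.mem_finRange _) n (List.mem_finRange _) p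
    (List.mem_finRange _)
  rw [h] at this
  exact ⟨_, _, _, out3_of (by simpa using this)⟩

theorem padj_nb : ∀ A B : Fin 10, padj A B = true → ∃ n, nb A n = B := by decide

end Tab

open Tab

theorem tab2a (j i : Fin 3) (W A : Fin 10) (hj : nb W j = A) (hi : nb A i = W) (pW pA : Fin 4)
    (h1 : pW = 3 ∨ pW.val = j.val) (h2 : pA = 3 ∨ pA.val = i.val) :
    ∃ y Ψ, Out2 W A pW pA y Ψ := by
  apply tab2_of
  simp only [need2, List.any_eq_true]
  refine ⟨j, List.mem_finRange _, i, List.mem_finRange _, ?_⟩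
  simp [hj, hi, h1, h2]

theorem tab2f (j i : Fin 3) (W A : Fin 10) (hWA : W ≠ A) (hn : padj W A = false)
    (hj : nb W j = nb A i) (pW pA : Fin 4)
    (h : ((pW = 3 ∨ pW.val = j.val) ∧ pA ≠ 3 ∧ pA.val ≠ i.val) ∨
      ((pA = 3 ∨ pA.val = i.val) ∧ pW ≠ 3 ∧ pW.val ≠ j.val)) :
    ∃ y Ψ, Out2 W A pW pA y Ψ := by
  apply tab2_of
  simp only [need2, List.any_eq_true]
  refine ⟨j, List.mem_finRange _, i, List.mem_finRange _, ?_⟩
  rcases h with ⟨h1, h2, h3⟩ | ⟨h1, h2, h3⟩ <;> simp [hWA, hn, hj, h1, h2, h3]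

theorem tab3a (j : Fin 3) (W A B : Fin 10) (hAB : padj A B = true) (hWA : W ≠ A) (hWB : W ≠ B)
    (hj : nb W j = A ∨ nb W j = B) (pW : Fin 4) (h : pW = 3 ∨ pW.val = j.val) :
    ∃ ve vf Ψ, Out3 W A B pW ve vf Ψ := by
  obtain ⟨n, rfl⟩ := padj_nb A B hAB
  apply tab3_of
  have : (List.finRange 3).any (fun j => (nb W j == A || nb W j == nb A n) &&
      (pW == 3 || pW.val == j.val)) = true := by
    rw [List.any_eq_true]
    exact ⟨j, List.mem_finRange _, by simp [hj, h]⟩
  simp only [need3, this, hWA, hWB, Bool.or_true, Bool.and_true, Bool.not_eq_true',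
    beq_eq_false_iff_ne, ne_eq, not_false_eq_true, Bool.and_eq_true, and_self]

theorem tab3f (W A B : Fin 10) (hAB : padj A B = true) (hWA : W ≠ A) (hWB : W ≠ B)
    (hA : padj W A = false) (hB : padj W B = false) (pW : Fin 4) :
    ∃ ve vf Ψ, Out3 W A B pW ve vf Ψ := by
  obtain ⟨n, rfl⟩ := padj_nb A B hAB
  apply tab3_of
  simp [need3, hA, hB, hWA, hWB]

end Pool.Agent.TH362.TF
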